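import Pool.Agent.V7H54.M.LatP
import Pool.Agent.H64R2.DD_MWK

/-!
# The descent map `P ↦ x(P) - θ` is injective modulo `2 E(ℚ)`
-/

set_option autoImplicit false
set_option linter.all false

open Polynomial Matrix NumberField WeierstrassCurve.Affine
open scoped Classical

namespace Pool.Agent.V7H54.M

open Pool.Agent.V7H54.A
open Pool.Agent.V7H54.N
open Pool.Agent.N783.PF
open Pool.Agent.H925R3.DC

section fld

variable {L : Type} [Field L] [NumberField L] [Algebra ℚ L] {A t : ℤ} {θ : L}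

/-- The representation by rational coefficients is unique. -/
theorem uniqQ (hG : IsGen 1 (pol A t) θ) {a b c a' b' c' : ℚ}
    (h : algebraMap ℚ L a + algebraMap ℚ L b * θ + algebraMap ℚ L c * θ ^ 2 =
      algebraMap ℚ L a' + algebraMap ℚ L b' * θ + algebraMap ℚ L c' * θ ^ 2) :
    a = a' ∧ b = b' ∧ c = c' := by
  have hli := hG.basis.linearIndependent
  rw [Fintype.linearIndependent_iff] at hli
  have h1 := hli ![a - a', b - b', c - c'] (by
    rw [Fin.sum_univ_three]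
    rw [hG.basis_apply, hG.basis_apply, hG.basis_apply]
    have f0 : ((0 : Fin 3) : ℕ) = 0 := rfl
    have f1 : ((1 : Fin 3) : ℕ) = 1 := rfl
    have f2 : ((2 : Fin 3) : ℕ) = 2 := rfl
    rw [f0, f1, f2]
    rw [Algebra.smul_def, Algebra.smul_def, Algebra.smul_def]
    have e0 : (![a - a', b - b', c - c'] : Fin 3 → ℚ) 0 = a - a' := rfl
    have e1 : (![a - a', b - b', c - c'] : Fin 3 → ℚ) 1 = b - b' := rfl
    have e2 : (![a - a', b - b', c - c'] : Fin 3 → ℚ) 2 = c - c' := rfl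
    rw [e0, e1, e2, map_sub, map_sub, map_sub]
    linear_combination h)
  have k0 : a - a' = 0 := h1 0
  have k1 : b - b' = 0 := h1 1
  have k2 : c - c' = 0 := h1 2
  exact ⟨by linarith, by linarith, by linarith⟩

theorem exrep (hG : IsGen 1 (pol A t) θ) (x : L) : ∃ a b c : ℚ,
    x = algebraMap ℚ L a + algebraMap ℚ L b * θ + algebraMap ℚ L c * θ ^ 2 := by
  obtain ⟨v, hv⟩ := hG.gen x
  refine ⟨v 0, v 1, v 2, ?_⟩
  rw [hv, Fin.sum_univ_three]
  have f0 : ((0 : Fin 3) : ℕ) = 0 := rfl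
  have f1 : ((1 : Fin 3) : ℕ) = 1 := rfl
  have f2 : ((2 : Fin 3) : ℕ) = 2 := rfl
  rw [f0, f1, f2]
  ring

theorem sub_ne (hG : IsGen 1 (pol A t) θ) (e : ℚ) : algebraMap ℚ L e - θ ≠ 0 := by
  intro h
  have := uniqQ hG (a := e) (b := -1) (c := 0) (a' := 0) (b' := 0) (c' := 0) (by
    simp only [map_neg, map_one, map_zero]
    linear_combination h)
  have h2 := this.2.1
  norm_num at h2

/-- the cubic has no rational root -/
theorem no_root (hG : IsGen 1 (pol A t) θ) (e : ℚ) : e ^ 3 + A * e + t ≠ 0 := by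
  intro h
  have hc := cub hG
  have h0 := congrArg (algebraMap ℚ L) h
  simp only [map_add, map_mul, map_pow, map_intCast, map_zero] at h0
  have h1 : (algebraMap ℚ L e - θ) * (algebraMap ℚ L (e ^ 2 + A) + algebraMap ℚ L e * θ +
      algebraMap ℚ L 1 * θ ^ 2) = 0 := by
    simp only [map_add, map_mul, map_pow, map_intCast, map_one]
    linear_combination h0 - hc
  rcases mul_eq_zero.1 h1 with h2 | h2
  · exact sub_ne hG e h2
  · have := uniqQ hG (a' := 0) (b' := 0) (c' := 0) (by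
      rw [h2]
      simp)
    have h3 := this.2.2
    norm_num at h3

/-- **A point with `x - θ` a square is divisible by two.** -/
theorem ker_desc (hG : IsGen 1 (pol A t) θ) {x y : ℚ}
    (h : (crv ℚ (A : ℚ) (t : ℚ)).Nonsingular x y) {s : L} (hs : algebraMap ℚ L x - θ = s ^ 2) :
    ∃ S : (crv ℚ (A : ℚ) (t : ℚ)).Point, Point.some x y h = S + S := by
  have hc := cub hG
  obtain ⟨u, v, w, hs'⟩ := exrep hG s
  have hw : w ≠ 0 := by
    rintro rfl
    have h1 := uniqQ hG (a := x) (b := -1) (c := 0) (a' := u ^ 2) (b' := 2 * u * v) (c' := v ^ 2) (by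
      simp only [map_mul, map_pow, map_neg, map_one, map_ofNat, map_zero] at hs' ⊢
      rw [hs'] at hs
      linear_combination hs)
    obtain ⟨-, h2, h3⟩ := h1
    have h4 : v = 0 := pow_eq_zero_iff two_ne_zero |>.1 h3.symm
    rw [h4] at h2
    norm_num at h2
  obtain ⟨e, he⟩ : ∃ e : ℚ, e = v / w := ⟨_, rfl⟩
  have hew : e * w = v := by rw [he]; field_simp
  obtain ⟨l, hl⟩ : ∃ l : ℚ, l = u - e * v - A * w := ⟨_, rfl⟩
  obtain ⟨m, hm⟩ : ∃ m : ℚ, m = -(e * u) - t * w := ⟨_, rfl⟩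
  have hew' := congrArg (algebraMap ℚ L) hew
  have hl' := congrArg (algebraMap ℚ L) hl
  have hm' := congrArg (algebraMap ℚ L) hm
  simp only [map_add, map_sub, map_neg, map_mul, map_pow, map_intCast] at hew' hl' hm'
  have h1 : (algebraMap ℚ L e - θ) * s = -(algebraMap ℚ L l * θ + algebraMap ℚ L m) := by
    rw [hs', hl', hm']
    linear_combination (-algebraMap ℚ L w) * hc + θ ^ 2 * hew'
  have h2 : (algebraMap ℚ L l * θ + algebraMap ℚ L m) ^ 2 =
      (algebraMap ℚ L e - θ) ^ 2 * (algebraMap ℚ L x - θ) := by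
    rw [hs]
    linear_combination (-((algebraMap ℚ L e - θ) * s) + (algebraMap ℚ L l * θ + algebraMap ℚ L m)) * h1
  have h3 := uniqQ hG (a := m ^ 2) (b := 2 * l * m) (c := l ^ 2) (a' := e ^ 2 * x + t)
    (b' := A - e ^ 2 - 2 * e * x) (c' := 2 * e + x) (by
    simp only [map_add, map_sub, map_mul, map_pow, map_intCast, map_ofNat]
    linear_combination h2 - hc)
  obtain ⟨k1, k2, k3⟩ := h3
  obtain ⟨z, hz⟩ : ∃ z : ℚ, z = l * e + m := ⟨_, rfl⟩
  have hzz : z ^ 2 = e ^ 3 + A * e + t := by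
    rw [hz]
    linear_combination e ^ 2 * k3 + e * k2 + k1
  have hz0 : z ≠ 0 := by
    rintro rfl
    apply no_root hG e
    rw [← hzz]
    ring
  have hE : (crv ℚ (A : ℚ) (t : ℚ)).Equation e z := by
    rw [equation_iff]
    simp only [crv]
    linear_combination hzz
  have hN : (crv ℚ (A : ℚ) (t : ℚ)).Nonsingular e z := by
    rw [nonsingular_iff]
    refine ⟨hE, Or.inr ?_⟩
    simp only [crv]
    intro h5
    apply hz0
    linarith
  have hny : z ≠ (crv ℚ (A : ℚ) (t : ℚ)).negY e z := by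
    intro h5
    simp only [negY, crv] at h5
    apply hz0
    linarith
  have hsl : (crv ℚ (A : ℚ) (t : ℚ)).slope e e z z = l := by
    rw [slope_of_Y_ne rfl hny]
    simp only [negY, crv]
    have h6 : z - (-z - 0 * e - 0) = 2 * z := by ring
    rw [h6, div_eq_iff (by simpa using hz0)]
    rw [hz]
    linear_combination (-k2) - 2 * e * k3
  obtain ⟨S, hS⟩ : ∃ S : (crv ℚ (A : ℚ) (t : ℚ)).Point, S = Point.some e z hN := ⟨_, rfl⟩
  have hSS : ∃ (x' y' : ℚ) (h' : (crv ℚ (A : ℚ) (t : ℚ)).Nonsingular x' y'),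
      S + S = Point.some x' y' h' ∧ x' = x := by
    refine ⟨_, _, _, by rw [hS]; exact Point.add_self_of_Y_ne hny, ?_⟩
    rw [hsl]
    simp only [addX, crv]
    linear_combination k3
  obtain ⟨x', y', h', hSS', hxx⟩ := hSS
  subst hxx
  rcases (Point.X_eq_iff (h₁ := h) (h₂ := h')).1 rfl with h7 | h7
  · exact ⟨S, by rw [h7, hSS']⟩
  · refine ⟨-S, ?_⟩
    rw [h7, ← hSS']
    abel

/-- the product formula -/
theorem prod_sq (hG : IsGen 1 (pol A t) θ) {x₁ y₁ x₂ y₂ : ℚ}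
    (h₁ : (crv ℚ (A : ℚ) (t : ℚ)).Nonsingular x₁ y₁) (h₂ : (crv ℚ (A : ℚ) (t : ℚ)).Nonsingular x₂ y₂)
    (hx : x₁ ≠ x₂) : ∃ (x₃ y₃ : ℚ) (h₃ : (crv ℚ (A : ℚ) (t : ℚ)).Nonsingular x₃ y₃) (w : L),
    Point.some x₁ y₁ h₁ + Point.some x₂ y₂ h₂ = Point.some x₃ y₃ h₃ ∧
    (algebraMap ℚ L x₁ - θ) * (algebraMap ℚ L x₂ - θ) * (algebraMap ℚ L x₃ - θ) = w ^ 2 := by
  have hc := cub hG
  have hxy : ¬ (x₁ = x₂ ∧ y₁ = (crv ℚ (A : ℚ) (t : ℚ)).negY x₂ y₂) := fun h => hx h.1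
  obtain ⟨l, hl⟩ : ∃ l : ℚ, l = (crv ℚ (A : ℚ) (t : ℚ)).slope x₁ x₂ y₁ y₂ := ⟨_, rfl⟩
  have hp := addPolynomial_slope h₁.1 h₂.1 hxy
  rw [← hl, addPolynomial_eq] at hp
  have hp' := congrArg (aeval θ) hp
  simp only [Cubic.toPoly, addX, crv, map_neg, map_add, map_sub, map_mul, map_pow, aeval_X, aeval_C,
    map_one, map_zero, map_ofNat, map_intCast] at hp'
  refine ⟨_, _, _, algebraMap ℚ L l * (θ - algebraMap ℚ L x₁) + algebraMap ℚ L y₁,
    Point.add_of_X_ne hx, ?_⟩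
  rw [← hl]
  simp only [addX, crv, map_sub, map_add, map_mul, map_pow, map_zero]
  linear_combination -hp' - hc

/-- **The descent map is injective.** -/
theorem inj_desc (hG : IsGen 1 (pol A t) θ) {x₁ y₁ x₂ y₂ : ℚ}
    (h₁ : (crv ℚ (A : ℚ) (t : ℚ)).Nonsingular x₁ y₁) (h₂ : (crv ℚ (A : ℚ) (t : ℚ)).Nonsingular x₂ y₂)
    {s : L} (hs : algebraMap ℚ L x₁ - θ = s ^ 2 * (algebraMap ℚ L x₂ - θ)) :
    ∃ S : (crv ℚ (A : ℚ) (t : ℚ)).Point, Point.some x₁ y₁ h₁ - Point.some x₂ y₂ h₂ = S + S := by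
  by_cases hx : x₁ = x₂
  · rcases (Point.X_eq_iff (h₁ := h₁) (h₂ := h₂)).1 hx with h | h
    · exact ⟨0, by rw [h]; simp⟩
    · refine ⟨Point.some x₁ y₁ h₁, ?_⟩
      have h3 : Point.some x₂ y₂ h₂ = - Point.some x₁ y₁ h₁ := by rw [h, neg_neg]
      rw [h3, sub_neg_eq_add]
  · obtain ⟨x₃, y₃, h₃, w, hadd, hw⟩ := prod_sq hG h₁ h₂ hx
    have hx2 := sub_ne hG x₂
    have hx1 := sub_ne hG x₁
    have hs0 : s ≠ 0 := by
      rintro rfl
      apply hx1
      rw [hs]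
      ring
    have h4 : algebraMap ℚ L x₃ - θ = (w / (s * (algebraMap ℚ L x₂ - θ))) ^ 2 := by
      rw [div_pow, eq_div_iff (pow_ne_zero 2 (mul_ne_zero hs0 hx2)), ← hw, hs]
      ring
    obtain ⟨S, hS⟩ := ker_desc hG h₃ h4
    refine ⟨S - Point.some x₂ y₂ h₂, ?_⟩
    have h5 : Point.some x₁ y₁ h₁ = S + S - Point.some x₂ y₂ h₂ := by
      rw [← hS, ← hadd]
      abel
    rw [h5]
    abel

end fld

end Pool.Agent.V7H54.M
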