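import Pool.Agent.V7H54.M.RedP

/-!
# Curves with a rational point of order two: the bound for the number of classes modulo two
-/

set_option autoImplicit false
set_option linter.all false

open Polynomial WeierstrassCurve.Affine
open scoped Classical

namespace Pool.Agent.V7H54.M

open Pool.Agent.H925R3.DC

/-- the points with `2 P = 0` -/
def Bad {A t : ℤ} (P : (crv ℚ (A : ℚ) (t : ℚ)).Point) : Prop :=
  P = 0 ∨ ∃ (x : ℚ) (h : (crv ℚ (A : ℚ) (t : ℚ)).Nonsingular x 0), P = Point.some x 0 h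

theorem good_iff {A t : ℤ} {P : (crv ℚ (A : ℚ) (t : ℚ)).Point} (h : ¬ Bad P) :
    ∃ (x y : ℚ) (h : (crv ℚ (A : ℚ) (t : ℚ)).Nonsingular x y), P = Point.some x y h ∧ y ≠ 0 := by
  rcases P with _ | ⟨x, y, h'⟩
  · exact absurd (Or.inl rfl) h
  · refine ⟨x, y, h', rfl, ?_⟩
    rintro rfl
    exact h (Or.inr ⟨x, h', rfl⟩)

theorem pt_eq {A t : ℤ} {x y : ℚ} (h : (crv ℚ (A : ℚ) (t : ℚ)).Nonsingular x y) :
    y ^ 2 = x ^ 3 + A * x + t := by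
  have h1 := h.1
  rw [equation_iff] at h1
  simp only [crv] at h1
  linear_combination h1

/-- the first coordinate -/
noncomputable def xc {A t : ℤ} (P : (crv ℚ (A : ℚ) (t : ℚ)).Point) : Option ℚ :=
  match P with
  | .zero => none
  | .some x _ _ => some x

theorem bad4 {A t : ℤ} (F : Finset (crv ℚ (A : ℚ) (t : ℚ)).Point) : (F.filter Bad).card ≤ 4 := by
  have h1 : (F.filter Bad).card ≤ (insert none ((fq A t).roots.toFinset.image some)).card := by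
    refine Finset.card_le_card_of_injOn xc ?_ ?_
    · intro P hP
      rw [Finset.mem_coe, Finset.mem_filter] at hP
      rw [Finset.mem_coe, Finset.mem_insert, Finset.mem_image]
      rcases hP.2 with rfl | ⟨x, h, rfl⟩
      · exact Or.inl rfl
      · refine Or.inr ⟨x, ?_, rfl⟩
        rw [Multiset.mem_toFinset, mem_roots (fq_mon A t).ne_zero, IsRoot, fq_eval]
        have := pt_eq h
        rw [← this]
        ring
    · intro P hP Q hQ hPQ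
      rw [Finset.mem_coe, Finset.mem_filter] at hP hQ
      rcases hP.2 with rfl | ⟨x, h, rfl⟩ <;> rcases hQ.2 with rfl | ⟨x', h', rfl⟩
      · rfl
      · exact absurd hPQ (by intro h0; cases h0)
      · exact absurd hPQ (by intro h0; cases h0)
      · have : x = x' := Option.some_injective _ hPQ
        subst this
        rfl
  have h2 : (insert none ((fq A t).roots.toFinset.image some)).card ≤ 3 + 1 := by
    refine (Finset.card_insert_le _ _).trans (Nat.add_le_add_right ?_ 1)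
    refine Finset.card_image_le.trans ((Multiset.toFinset_card_le _).trans ?_)
    exact (card_roots' _).trans (fq_deg A t).le
  exact h1.trans h2

variable {A m t : ℤ}

theorem shape2 {x y : ℚ} (ht : t = -(m ^ 3 + A * m)) (h : y ^ 2 = x ^ 3 + A * x + t) (hy : y ≠ 0) :
    ∃ r s u : ℤ, s ≠ 0 ∧ u ≠ 0 ∧ IsCoprime u s ∧ IsCoprime r s ∧ x = r / s ^ 2 ∧ y = u / s ^ 3 ∧
      u ^ 2 = (r - m * s ^ 2) * (r ^ 2 + m * r * s ^ 2 + (m ^ 2 + A) * s ^ 4) := by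
  obtain ⟨r, s, u, h1, h2, h3, h4, h5⟩ := shape h
  refine ⟨r, s, u, h1, ?_, h2, ?_, h3, h4, ?_⟩
  · rintro rfl
    apply hy
    rw [h4]
    simp
  · have h6 : IsCoprime (u ^ 2) s := h2.pow_left
    have h7 : u ^ 2 = r ^ 3 + s * (A * r * s ^ 3 + t * s ^ 5) := by rw [h5]; ring
    rw [h7] at h6
    have h8 : IsCoprime (r ^ 3) s := IsCoprime.of_add_mul_left_left h6
    exact (IsCoprime.pow_left_iff (by norm_num : 0 < 3)).1 h8
  · rw [h5, ht]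
    ring

/-- the first class of a point -/
theorem pt1 {x y : ℚ} (ht : t = -(m ^ 3 + A * m)) (hb : 3 * m ^ 2 + A ≠ 0)
    (h : y ^ 2 = x ^ 3 + A * x + t) (hy : y ≠ 0) :
    ∃ d ∈ dv (3 * m ^ 2 + A), d ≠ 0 ∧ ∃ a : ℚ, a ≠ 0 ∧ x - m = d * a ^ 2 := by
  obtain ⟨r, s, u, hs, hu, hus, hrs, hx, hy', h5⟩ := shape2 ht h hy
  obtain ⟨d, a₀, hd, ha₀, h6⟩ := cls1 hus hu hs h5
  refine ⟨d, mem_dv hb hd, ?_, (a₀ : ℚ) / s, ?_, ?_⟩
  · rintro rfl
    exact hb (zero_dvd_iff.1 hd)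
  · have h1 : (a₀ : ℚ) ≠ 0 := by exact_mod_cast ha₀
    have h2 : (s : ℚ) ≠ 0 := by exact_mod_cast hs
    positivity
  · have h2 : (s : ℚ) ≠ 0 := by exact_mod_cast hs
    have h7 : (r : ℚ) - m * s ^ 2 = d * a₀ ^ 2 := by exact_mod_cast h6
    rw [hx]
    field_simp
    linear_combination h7

/-- the second class of a point -/
theorem pt2 {x y w : ℚ} (ht : t = -(m ^ 3 + A * m)) (hD : 3 * m ^ 2 + 4 * A ≠ 0)
    (h : y ^ 2 = x ^ 3 + A * x + t) (hy : y ≠ 0) (hw : x - m = w ^ 2) :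
    ∃ k ∈ dv (2 * (3 * m ^ 2 + 4 * A)), k ≠ 0 ∧ ∃ c n : ℚ, c ≠ 0 ∧
      n ^ 2 = x ^ 2 + m * x + (m ^ 2 + A) ∧ 2 * x + m + 2 * n = k * c ^ 2 := by
  obtain ⟨r, s, u, hs, hu, hus, hrs, hx, hy', h5⟩ := shape2 ht h hy
  have hs' : (s : ℚ) ≠ 0 := by exact_mod_cast hs
  have h6 : IsSquare (((r - m * s ^ 2 : ℤ)) : ℚ) := by
    refine ⟨w * s, ?_⟩
    push_cast
    rw [hx] at hw
    field_simp at hw
    linear_combination hw
  rw [Rat.isSquare_intCast_iff] at h6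
  obtain ⟨a, ha⟩ := h6
  rw [ha] at h5
  have ha0 : a ≠ 0 := by
    rintro rfl
    apply hu
    have : u ^ 2 = 0 := by rw [h5]; ring
    exact pow_eq_zero_iff two_ne_zero |>.1 this
  have h7 : a ∣ u := by
    have h8 : a ^ 2 ∣ u ^ 2 := ⟨r ^ 2 + m * r * s ^ 2 + (m ^ 2 + A) * s ^ 4, by rw [h5]; ring⟩
    exact (Int.pow_dvd_pow_iff two_ne_zero).1 h8
  obtain ⟨n, hn⟩ := h7
  have h8 : n ^ 2 = r ^ 2 + m * r * s ^ 2 + (m ^ 2 + A) * s ^ 4 := by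
    have h9 : a ^ 2 * n ^ 2 = a ^ 2 * (r ^ 2 + m * r * s ^ 2 + (m ^ 2 + A) * s ^ 4) := by
      calc a ^ 2 * n ^ 2 = u ^ 2 := by rw [hn]; ring
        _ = _ := by rw [h5]; ring
    exact mul_left_cancel₀ (pow_ne_zero 2 ha0) h9
  obtain ⟨k, a₀, hk, ha₀, h10⟩ := cls2 hrs hs hD h8
  have hD2 : 2 * (3 * m ^ 2 + 4 * A) ≠ 0 := mul_ne_zero two_ne_zero hD
  refine ⟨k, mem_dv hD2 hk, ?_, (a₀ : ℚ) / s, (n : ℚ) / s ^ 2, ?_, ?_, ?_⟩
  · rintro rfl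
    exact hD2 (zero_dvd_iff.1 hk)
  · have h1 : (a₀ : ℚ) ≠ 0 := by exact_mod_cast ha₀
    positivity
  · have h11 : (n : ℚ) ^ 2 = r ^ 2 + m * r * s ^ 2 + (m ^ 2 + A) * s ^ 4 := by exact_mod_cast h8
    rw [hx]
    field_simp
    linear_combination h11
  · have h11 : (2 : ℚ) * r + m * s ^ 2 + 2 * n = k * a₀ ^ 2 := by exact_mod_cast h10
    rw [hx]
    field_simp
    linear_combination h11

/-- **Equal classes.** -/
theorem eq_cls (ht : t = -(m ^ 3 + A * m)) (hb : 3 * m ^ 2 + A ≠ 0) (hD : 3 * m ^ 2 + 4 * A ≠ 0)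
    {x₁ y₁ x₂ y₂ w₁ w₂ c₁ c₂ n₁ n₂ : ℚ} {k : ℤ} (hk : k ≠ 0) (hc₁ : c₁ ≠ 0) (hc₂ : c₂ ≠ 0)
    (h₁ : (crv ℚ (A : ℚ) (t : ℚ)).Nonsingular x₁ y₁) (h₂ : (crv ℚ (A : ℚ) (t : ℚ)).Nonsingular x₂ y₂)
    (hy₁ : y₁ ≠ 0) (hy₂ : y₂ ≠ 0) (hw₁ : x₁ - m = w₁ ^ 2) (hw₂ : x₂ - m = w₂ ^ 2)
    (hn₁ : n₁ ^ 2 = x₁ ^ 2 + m * x₁ + (m ^ 2 + A)) (hn₂ : n₂ ^ 2 = x₂ ^ 2 + m * x₂ + (m ^ 2 + A))
    (hq₁ : 2 * x₁ + m + 2 * n₁ = k * c₁ ^ 2) (hq₂ : 2 * x₂ + m + 2 * n₂ = k * c₂ ^ 2) :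
    ∃ S : (crv ℚ (A : ℚ) (t : ℚ)).Point, Point.some x₁ y₁ h₁ - Point.some x₂ y₂ h₂ = S + S := by
  have hd : 4 * A ^ 3 + 27 * t ^ 2 ≠ 0 := by
    have e : 4 * A ^ 3 + 27 * t ^ 2 = (3 * m ^ 2 + A) ^ 2 * (3 * m ^ 2 + 4 * A) := by
      rw [ht]
      ring
    rw [e]
    exact mul_ne_zero (pow_ne_zero 2 hb) hD
  obtain ⟨g, hg⟩ : ∃ g : ℚ[X], g = X ^ 2 + C (m : ℚ) * X + C ((m : ℚ) ^ 2 + A) := ⟨_, rfl⟩
  have hfg : fq A t = (X - C (m : ℚ)) * g := by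
    unfold fq
    rw [hg, ht]
    push_cast
    simp only [map_neg, map_add, map_mul, map_pow, map_intCast]
    ring
  have hk' : (k : ℚ) ≠ 0 := by exact_mod_cast hk
  obtain ⟨h₀, hh₀⟩ : ∃ h₀ : ℚ[X], h₀ = C (1 / (k * c₁ * c₂)) * ((C x₁ - X + C n₁) * (C x₂ - X + C n₂)) :=
    ⟨_, rfl⟩
  obtain ⟨c₀, hc₀⟩ : ∃ c₀ : ℚ, c₀ = (w₁ * w₂ - h₀.eval (m : ℚ)) / (3 * m ^ 2 + A) := ⟨_, rfl⟩
  have hb' : (3 * (m : ℚ) ^ 2 + A) ≠ 0 := by exact_mod_cast hb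
  have hgm : g.eval (m : ℚ) = 3 * m ^ 2 + A := by
    rw [hg]
    simp
    ring
  refine inj_pol hd h₁ h₂ ?_ ?_ (s := h₀ + C c₀ * g) ?_
  · rw [fq_eval, ← pt_eq h₁]
    exact pow_ne_zero 2 hy₁
  · rw [fq_eval, ← pt_eq h₂]
    exact pow_ne_zero 2 hy₂
  · rw [hfg]
    refine IsCoprime.mul_dvd ?_ ?_ ?_
    · rw [(irreducible_X_sub_C (m : ℚ)).coprime_iff_not_dvd, dvd_iff_isRoot, IsRoot, hgm]
      exact hb'
    · rw [dvd_iff_isRoot, IsRoot]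
      have h5 : (h₀ + C c₀ * g).eval (m : ℚ) = w₁ * w₂ := by
        rw [eval_add, eval_mul, eval_C, hgm, hc₀]
        field_simp
        ring
      simp only [eval_sub, eval_mul, eval_pow, eval_C, eval_X]
      rw [h5, hw₁, hw₂]
      ring
    · -- modulo `g`
      have e1 : (C x₁ - X + C n₁) ^ 2 = (C x₁ - X) * C (k * c₁ ^ 2) + g := by
        have hn := congrArg (fun z : ℚ => (C z : ℚ[X])) hn₁
        simp only [map_add, map_mul, map_pow] at hn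
        rw [← hq₁, hg]
        simp only [map_add, map_mul, map_pow, map_ofNat]
        linear_combination hn
      have e2 : (C x₂ - X + C n₂) ^ 2 = (C x₂ - X) * C (k * c₂ ^ 2) + g := by
        have hn := congrArg (fun z : ℚ => (C z : ℚ[X])) hn₂
        simp only [map_add, map_mul, map_pow] at hn
        rw [← hq₂, hg]
        simp only [map_add, map_mul, map_pow, map_ofNat]
        linear_combination hn
      have e3 : (C (1 / (k * c₁ * c₂)) : ℚ[X]) * (C (k : ℚ) * C c₁ * C c₂) = 1 := by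
        rw [← map_mul, ← map_mul, ← map_mul, ← map_one C]
        congr 1
        field_simp
      obtain ⟨κ, hκ⟩ : ∃ κ : ℚ[X], κ = C (1 / (k * c₁ * c₂)) := ⟨_, rfl⟩
      rw [← hκ] at e3 hh₀
      simp only [map_mul, map_pow] at e1 e2
      refine ⟨-(κ ^ 2 * ((C x₁ - X) * (C (k : ℚ) * C c₁ ^ 2) + (C x₂ - X) * (C (k : ℚ) * C c₂ ^ 2) + g)) -
        C c₀ * (2 * h₀ + C c₀ * g), ?_⟩
      have e4 : h₀ ^ 2 = κ ^ 2 * (((C x₁ - X) * (C (k : ℚ) * C c₁ ^ 2) + g) *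
          ((C x₂ - X) * (C (k : ℚ) * C c₂ ^ 2) + g)) := by
        rw [← e1, ← e2, hh₀]
        ring
      linear_combination (-1 : ℚ[X]) * e4 - (C x₁ - X) * (C x₂ - X) *
        (κ * (C (k : ℚ) * C c₁ * C c₂) + 1) * e3

/-- **The number of classes.** -/
theorem red_card (ht : t = -(m ^ 3 + A * m)) (hb : 3 * m ^ 2 + A ≠ 0) (hD : 3 * m ^ 2 + 4 * A ≠ 0)
    (R : Finset (crv ℚ (A : ℚ) (t : ℚ)).Point)
    (hR : ∀ P ∈ R, ∀ Q ∈ R, (∃ S : (crv ℚ (A : ℚ) (t : ℚ)).Point, P - Q = S + S) → P = Q) :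
    R.card ≤ 4 + (dv (3 * m ^ 2 + A)).card * (4 + (dv (2 * (3 * m ^ 2 + 4 * A))).card) := by
  have hch : ∀ P : (crv ℚ (A : ℚ) (t : ℚ)).Point, ∃ d : ℤ, ¬ Bad P → d ∈ dv (3 * m ^ 2 + A) ∧ d ≠ 0 ∧
      ∃ (x y : ℚ) (h : (crv ℚ (A : ℚ) (t : ℚ)).Nonsingular x y) (a : ℚ), P = Point.some x y h ∧
        y ≠ 0 ∧ a ≠ 0 ∧ x - m = d * a ^ 2 := by
    intro P
    by_cases hP : Bad P
    · exact ⟨0, fun h => absurd hP h⟩
    · obtain ⟨x, y, h, hPe, hy⟩ := good_iff hP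
      obtain ⟨d, hd, hd0, a, ha, hxa⟩ := pt1 ht hb (pt_eq h) hy
      exact ⟨d, fun _ => ⟨hd, hd0, x, y, h, a, hPe, hy, ha, hxa⟩⟩
  choose d hd using hch
  have hsplit : ∀ F : Finset (crv ℚ (A : ℚ) (t : ℚ)).Point,
      F.card = (F.filter Bad).card + (F.filter fun P => ¬ Bad P).card := fun F =>
    (Finset.card_filter_add_card_filter_not _).symm
  have hfib : ∀ e ∈ dv (3 * m ^ 2 + A), (((R.filter fun P => ¬ Bad P)).filter fun P => d P = e).card ≤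
      4 + (dv (2 * (3 * m ^ 2 + 4 * A))).card := by
    intro e he
    obtain ⟨F, hF⟩ : ∃ F : Finset (crv ℚ (A : ℚ) (t : ℚ)).Point,
      F = ((R.filter fun P => ¬ Bad P)).filter fun P => d P = e := ⟨_, rfl⟩
    have hFm : ∀ P ∈ F, P ∈ R ∧ ¬ Bad P ∧ d P = e := by
      intro P hP
      rw [hF, Finset.mem_filter, Finset.mem_filter] at hP
      exact ⟨hP.1.1, hP.1.2, hP.2⟩
    rw [← hF]
    by_cases hF0 : F = ∅
    · rw [hF0]
      simp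
    obtain ⟨P₀, hP₀⟩ := Finset.nonempty_iff_ne_empty.2 hF0
    obtain ⟨F', hF'⟩ : ∃ F' : Finset (crv ℚ (A : ℚ) (t : ℚ)).Point, F' = F.image fun P => P + P₀ :=
      ⟨_, rfl⟩
    have hcard : F'.card = F.card := by
      rw [hF']
      exact Finset.card_image_of_injective _ (add_left_injective P₀)
    rw [← hcard, hsplit F']
    refine add_le_add (bad4 F') ?_
    -- the second class
    have hsq : ∀ S ∈ F'.filter fun P => ¬ Bad P, ∃ k : ℤ, k ∈ dv (2 * (3 * m ^ 2 + 4 * A)) ∧ k ≠ 0 ∧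
        ∃ (x y w c n : ℚ) (h : (crv ℚ (A : ℚ) (t : ℚ)).Nonsingular x y), S = Point.some x y h ∧
        y ≠ 0 ∧ x - m = w ^ 2 ∧ c ≠ 0 ∧ n ^ 2 = x ^ 2 + m * x + (m ^ 2 + A) ∧
        2 * x + m + 2 * n = k * c ^ 2 := by
      intro S hS
      rw [Finset.mem_filter, hF', Finset.mem_image] at hS
      obtain ⟨⟨P, hP, hPS⟩, hSb⟩ := hS
      obtain ⟨-, hPb, hPd⟩ := hFm P hP
      obtain ⟨-, hP₀b, hP₀d⟩ := hFm P₀ hP₀
      obtain ⟨-, he0, x₁, y₁, h₁, a₁, hPe, hy₁, ha₁, hx₁⟩ := hd P hPb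
      obtain ⟨-, -, x₂, y₂, h₂, a₂, hP₀e, hy₂, ha₂, hx₂⟩ := hd P₀ hP₀b
      rw [hPd] at hx₁ he0
      rw [hP₀d] at hx₂
      have hxy : ¬ (x₁ = x₂ ∧ y₁ = (crv ℚ (A : ℚ) (t : ℚ)).negY x₂ y₂) := by
        rintro ⟨e1, e2⟩
        apply hSb
        left
        rw [← hPS, hPe, hP₀e]
        exact Point.add_of_Y_eq e1 e2
      obtain ⟨x₃, y₃, h₃, w, hadd, hw⟩ := prod_pol h₁ h₂ hxy
      have hSe : S = Point.some x₃ y₃ h₃ := by rw [← hPS, hPe, hP₀e, hadd]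
      have hy₃ : y₃ ≠ 0 := by
        rintro rfl
        exact hSb (Or.inr ⟨x₃, h₃, hSe⟩)
      have he0' : (e : ℚ) ≠ 0 := by exact_mod_cast he0
      have hw' := congrArg (fun p => eval (m : ℚ) p) hw
      simp only [eval_sub, eval_mul, eval_pow, eval_C, eval_X] at hw'
      have hfm : (fq A t).eval (m : ℚ) = 0 := by
        rw [fq_eval, ht]
        push_cast
        ring
      rw [hfm, hx₁, hx₂, sub_zero] at hw'
      have hsq3 : x₃ - m = (w.eval (m : ℚ) / (e * a₁ * a₂)) ^ 2 := by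
        rw [div_pow, eq_div_iff (by positivity), ← hw']
        ring
      obtain ⟨k, hk, hk0, c, n, hc, hn, hq⟩ := pt2 ht hD (pt_eq h₃) hy₃ hsq3
      exact ⟨k, hk, hk0, x₃, y₃, _, c, n, h₃, hSe, hy₃, hsq3, hc, hn, hq⟩
    choose! k hk using hsq
    refine Finset.card_le_card_of_injOn k (fun S hS => (hk S hS).1) ?_
    intro S hS S' hS' hkk
    rw [Finset.mem_coe] at hS hS'
    obtain ⟨-, hk0, x, y, w, c, n, h, hSe, hy, hw, hc, hn, hq⟩ := hk S hS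
    obtain ⟨-, -, x', y', w', c', n', h', hSe', hy', hw', hc', hn', hq'⟩ := hk S' hS'
    rw [← hkk] at hq'
    have h5 := eq_cls ht hb hD hk0 hc hc' h h' hy hy' hw hw' hn hn' hq hq'
    rw [← hSe, ← hSe'] at h5
    rw [Finset.mem_filter, hF', Finset.mem_image] at hS hS'
    obtain ⟨⟨P, hP, hPS⟩, -⟩ := hS
    obtain ⟨⟨P', hP', hPS'⟩, -⟩ := hS'
    rw [← hPS, ← hPS'] at h5
    have h6 : P = P' := by
      refine hR P (hFm P hP).1 P' (hFm P' hP').1 ?_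
      obtain ⟨U, hU⟩ := h5
      exact ⟨U, by rw [← hU]; abel⟩
    rw [← hPS, ← hPS', h6]
  rw [hsplit R]
  refine add_le_add (bad4 R) ?_
  rw [Finset.card_eq_sum_card_fiberwise (f := d) (t := dv (3 * m ^ 2 + A)) (by
    intro P hP
    rw [Finset.mem_coe, Finset.mem_filter] at hP
    exact (hd P hP.2).1)]
  calc _ ≤ ∑ e ∈ dv (3 * m ^ 2 + A), (4 + (dv (2 * (3 * m ^ 2 + 4 * A))).card) :=
        Finset.sum_le_sum hfib
    _ = _ := by rw [Finset.sum_const, smul_eq_mul]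

end Pool.Agent.V7H54.M
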