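import Pool.Agent.V7H54.M.CntP
import Pool.Agent.V7H54.M.RedC

/-!
# The average of `2 ^ rank` in a slice: all parameters
-/

set_option autoImplicit false
set_option linter.all false

open Polynomial WeierstrassCurve.Affine
open scoped Classical

namespace Pool.Agent.V7H54.M

open Pool.Agent.V7H54.A
open Pool.Agent.V7H54.N
open Pool.Agent.N783.PF
open Pool.Agent.H925R3.DC

/-- The irreducible cubics. -/
theorem irr_part {A : ℤ} (hA : A ≠ 0) : ∃ C : ℝ, 0 ≤ C ∧ ∀ T : ℝ, 1 ≤ T → ∀ J : Finset ℤ,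
    (∀ t ∈ J, |(t : ℝ)| ≤ T ∧ 0 < 4 * A ^ 3 + 27 * t ^ 2 ∧ Irreducible (fq A t)) →
    ∑ t ∈ J, (2 : ℝ) ^ rk A t ≤ C * T := by
  obtain ⟨C, hC, h⟩ := main_rk hA
  refine ⟨C, hC, fun T hT J hJ => ?_⟩
  have hex : ∀ t : ℤ, ∃ (L : Type) (_ : Field L) (_ : NumberField L) (_ : Algebra ℚ L) (θ : L),
      t ∈ J → IsGen 1 (pol A t) θ := by
    intro t
    by_cases ht : t ∈ J
    · obtain ⟨L, i1, i2, i3, θ, hθ⟩ := ex_fld (hJ t ht).2.2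
      exact ⟨L, i1, i2, i3, θ, fun _ => hθ⟩
    · exact ⟨ℚ, inferInstance, inferInstance, inferInstance, 0, fun h => absurd h ht⟩
  choose K i1 i2 i3 θ hθ using hex
  exact h T hT J K θ (fun t ht => ⟨(hJ t ht).1, (hJ t ht).2.1, hθ t ht⟩)

/-- a reducible cubic has an integral root -/
theorem ex_root {A t : ℤ} (h : ¬ Irreducible (fq A t)) : ∃ m : ℤ, t = -(m ^ 3 + A * m) := by
  have h1 : ¬ (fq A t).roots = 0 := by
    intro h0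
    apply h
    rw [irreducible_iff_roots_eq_zero_of_degree_le_three (by rw [fq_deg]; norm_num) (by rw [fq_deg])]
    exact h0
  obtain ⟨x, hx⟩ := Multiset.exists_mem_of_ne_zero h1
  rw [mem_roots (fq_mon A t).ne_zero, IsRoot, fq_eval] at hx
  have h2 : IsIntegral ℤ x := by
    refine ⟨X ^ 3 + C A * X + C t, by monicity!, ?_⟩
    rw [eval₂_add, eval₂_add, eval₂_mul, eval₂_pow, eval₂_X, eval₂_C, eval₂_C]
    exact hx
  obtain ⟨m, hm⟩ := IsIntegrallyClosed.isIntegral_iff.1 h2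
  refine ⟨m, ?_⟩
  have hm' : (m : ℚ) = x := hm
  rw [← hm'] at hx
  have h3 : m ^ 3 + A * m + t = 0 := by exact_mod_cast hx
  linarith

/-- the bound for one reducible cubic -/
theorem red_one {A m t : ℤ} (ht : t = -(m ^ 3 + A * m)) (hd : 4 * A ^ 3 + 27 * t ^ 2 ≠ 0) :
    (2 : ℝ) ^ rk A t ≤ 36 * (6 * (m : ℝ) ^ 2 + 8 * |(A : ℝ)| + 1) := by
  have e : 4 * A ^ 3 + 27 * t ^ 2 = (3 * m ^ 2 + A) ^ 2 * (3 * m ^ 2 + 4 * A) := by
    rw [ht]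
    ring
  rw [e] at hd
  have hb : 3 * m ^ 2 + A ≠ 0 := by
    intro h0
    apply hd
    rw [h0]
    ring
  have hD : 3 * m ^ 2 + 4 * A ≠ 0 := by
    intro h0
    apply hd
    rw [h0]
    ring
  rw [← e] at hd
  obtain ⟨R, h1, h2, h3⟩ := ex_rep (crv ℚ (A : ℚ) (t : ℚ)).Point
    (Pool.Agent.H64R2.DDMWK.mwk ℚ A t hd)
  have h4 := red_card ht hb hD R h3
  have h5 : (2 : ℝ) ^ rk A t = (R.card : ℝ) := by
    have : 2 ^ rk A t = R.card := h1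
    rw [← this]
    push_cast
    rfl
  obtain ⟨X, hX⟩ : ∃ X : ℝ, X = 6 * (m : ℝ) ^ 2 + 8 * |(A : ℝ)| + 1 := ⟨_, rfl⟩
  have hA0 := abs_nonneg (A : ℝ)
  have hX1 : 1 ≤ X := by
    rw [hX]
    nlinarith [sq_nonneg (m : ℝ)]
  have k1 := card_dv (3 * m ^ 2 + A)
  have k2 := card_dv (2 * (3 * m ^ 2 + 4 * A))
  have b1 : |((3 * m ^ 2 + A : ℤ) : ℝ)| ≤ X := by
    push_cast
    refine (abs_add_le _ _).trans ?_
    rw [abs_of_nonneg (by positivity : (0 : ℝ) ≤ 3 * (m : ℝ) ^ 2), hX]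
    nlinarith [sq_nonneg (m : ℝ)]
  have b2 : |((2 * (3 * m ^ 2 + 4 * A) : ℤ) : ℝ)| ≤ X := by
    push_cast
    have e2 : (2 : ℝ) * (3 * (m : ℝ) ^ 2 + 4 * A) = 6 * (m : ℝ) ^ 2 + 8 * A := by ring
    rw [e2]
    refine (abs_add_le _ _).trans ?_
    rw [abs_of_nonneg (by positivity : (0 : ℝ) ≤ 6 * (m : ℝ) ^ 2), hX, abs_mul]
    norm_num
  have s1 := Real.sqrt_le_sqrt b1
  have s2 := Real.sqrt_le_sqrt b2
  obtain ⟨z, hz⟩ : ∃ z : ℝ, z = Real.sqrt X := ⟨_, rfl⟩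
  rw [← hz] at s1 s2
  have hz0 : 0 ≤ z := by rw [hz]; positivity
  have hz2 : z ^ 2 = X := by rw [hz]; exact Real.sq_sqrt (by linarith)
  have hz1 : 1 ≤ z := by
    by_contra hcon
    push Not at hcon
    nlinarith
  have h6 : (R.card : ℝ) ≤ 4 + (dv (3 * m ^ 2 + A)).card *
      (4 + (dv (2 * (3 * m ^ 2 + 4 * A))).card) := by
    exact_mod_cast h4
  rw [h5, ← hX]
  refine h6.trans ?_
  calc (4 : ℝ) + (dv (3 * m ^ 2 + A)).card * (4 + (dv (2 * (3 * m ^ 2 + 4 * A))).card)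
      ≤ 4 + (4 * z) * (4 + 4 * z) := by
        gcongr
        · linarith
        · linarith
    _ ≤ 36 * X := by rw [← hz2]; nlinarith

/-- the size of the root -/
theorem root_size {A m t : ℤ} {z : ℝ} (hz : 1 ≤ z) (ht : t = -(m ^ 3 + A * m))
    (h : |(t : ℝ)| ≤ z ^ 3) : |(m : ℝ)| ≤ (1 + |(A : ℝ)|) * z := by
  by_contra hcon
  push Not at hcon
  obtain ⟨a, ha⟩ : ∃ a : ℝ, a = |(A : ℝ)| := ⟨_, rfl⟩
  obtain ⟨μ, hμ⟩ : ∃ μ : ℝ, μ = |(m : ℝ)| := ⟨_, rfl⟩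
  rw [← ha, ← hμ] at hcon
  have ha0 : 0 ≤ a := by rw [ha]; positivity
  have h1 : μ ^ 3 ≤ z ^ 3 + a * μ := by
    have h2 : (m : ℝ) ^ 3 = -(t : ℝ) - A * m := by
      rw [ht]
      push_cast
      ring
    have h3 : μ ^ 3 = |(m : ℝ) ^ 3| := by rw [hμ, abs_pow]
    rw [h3, h2]
    calc |-(t : ℝ) - A * m| ≤ |-(t : ℝ)| + |(A : ℝ) * m| := abs_sub _ _
      _ = |(t : ℝ)| + a * μ := by rw [abs_neg, abs_mul, ha, hμ]
      _ ≤ _ := by linarith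
  have h4 : (1 + a) * 1 ≤ μ := by
    have : (1 + a) * 1 ≤ (1 + a) * z := by gcongr
    linarith
  have h5 : z ≤ μ := by nlinarith
  have h6 : 0 < μ := by linarith
  -- `μ ^ 3 ≥ (1 + a) ^ 2 μ` and `μ ^ 3 ≥ ...`
  have h7 : ((1 + a) * z) * μ ^ 2 < μ * μ ^ 2 := by
    exact mul_lt_mul_of_pos_right hcon (by positivity)
  have h8 : z ^ 3 ≤ z * μ ^ 2 := by
    have : z ^ 2 ≤ μ ^ 2 := pow_le_pow_left₀ (by linarith) h5 2
    nlinarith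
  have h9 : a * μ ≤ a * z * μ ^ 2 := by
    have h10 : μ ≤ z * μ ^ 2 := by
      have : 1 ≤ z * μ := by nlinarith
      nlinarith
    nlinarith
  nlinarith

/-- The reducible cubics. -/
theorem red_part (A : ℤ) : ∃ C : ℝ, 0 ≤ C ∧ ∀ T : ℝ, 1 ≤ T → ∀ J : Finset ℤ,
    (∀ t ∈ J, |(t : ℝ)| ≤ T ∧ 4 * A ^ 3 + 27 * t ^ 2 ≠ 0 ∧ ¬ Irreducible (fq A t)) →
    ∑ t ∈ J, (2 : ℝ) ^ rk A t ≤ C * T := by
  obtain ⟨a, ha⟩ : ∃ a : ℝ, a = |(A : ℝ)| := ⟨_, rfl⟩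
  have ha0 : 0 ≤ a := by rw [ha]; positivity
  refine ⟨3 * (1 + a) * (36 * (6 * (1 + a) ^ 2 + 8 * a + 1)), by positivity, fun T hT J hJ => ?_⟩
  have hT0 : 0 ≤ T := by linarith
  obtain ⟨z, hz⟩ : ∃ z : ℝ, z = T ^ ((1 : ℝ) / 3) := ⟨_, rfl⟩
  have hz0 : 0 ≤ z := by rw [hz]; positivity
  have hz3 : z ^ 3 = T := by
    rw [hz, ← Real.rpow_natCast, ← Real.rpow_mul hT0]
    norm_num
  have hz1 : 1 ≤ z := by
    by_contra h
    push Not at h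
    have : z ^ 3 < 1 := pow_lt_one₀ hz0 h (by norm_num)
    linarith
  have hch : ∀ t ∈ J, ∃ m : ℤ, t = -(m ^ 3 + A * m) := fun t ht => ex_root (hJ t ht).2.2
  choose! m hm using hch
  obtain ⟨M, hM⟩ : ∃ M : ℝ, M = (1 + a) * z := ⟨_, rfl⟩
  have hM1 : 1 ≤ M := by rw [hM]; nlinarith
  have hmM : ∀ t ∈ J, |(m t : ℝ)| ≤ M := by
    intro t ht
    rw [hM, ha]
    exact root_size hz1 (hm t ht) (by rw [hz3]; exact (hJ t ht).1)
  have hcard : (J.card : ℝ) ≤ 3 * M := by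
    have h1 : J.card ≤ (Finset.Icc (-⌊M⌋) ⌊M⌋).card := by
      refine Finset.card_le_card_of_injOn m ?_ ?_
      · intro t ht
        have h3 := abs_le.1 (hmM t ht)
        rw [Finset.mem_coe, Finset.mem_Icc]
        constructor
        · have h4 : -(m t) ≤ ⌊M⌋ := by
            rw [Int.le_floor]
            push_cast
            linarith
          omega
        · rw [Int.le_floor]
          exact h3.2
      · intro t ht t' ht' h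
        rw [hm t ht, hm t' ht', h]
    rw [Int.card_Icc] at h1
    have h3 : (0 : ℤ) ≤ ⌊M⌋ := Int.floor_nonneg.2 (by linarith)
    have h4 : ((J.card : ℤ)) ≤ 2 * ⌊M⌋ + 1 := by omega
    have h5 : (J.card : ℝ) ≤ 2 * (⌊M⌋ : ℝ) + 1 := by exact_mod_cast h4
    have h6 := Int.floor_le M
    linarith
  have hone : ∀ t ∈ J, (2 : ℝ) ^ rk A t ≤ 36 * (6 * M ^ 2 + 8 * a + 1) := by
    intro t ht
    refine (red_one (hm t ht) (hJ t ht).2.1).trans ?_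
    rw [← ha]
    have h1 : (m t : ℝ) ^ 2 ≤ M ^ 2 := by
      rw [← sq_abs]
      exact pow_le_pow_left₀ (abs_nonneg _) (hmM t ht) 2
    linarith
  calc ∑ t ∈ J, (2 : ℝ) ^ rk A t ≤ ∑ t ∈ J, 36 * (6 * M ^ 2 + 8 * a + 1) := Finset.sum_le_sum hone
    _ = J.card * (36 * (6 * M ^ 2 + 8 * a + 1)) := by rw [Finset.sum_const, nsmul_eq_mul]
    _ ≤ (3 * M) * (36 * ((6 * (1 + a) ^ 2 + 8 * a + 1) * z ^ 2)) := by
        have h2 : 6 * M ^ 2 + 8 * a + 1 ≤ (6 * (1 + a) ^ 2 + 8 * a + 1) * z ^ 2 := by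
          have h3 : 1 ≤ z ^ 2 := one_le_pow₀ hz1
          rw [hM]
          nlinarith
        gcongr
    _ = 3 * (1 + a) * (36 * (6 * (1 + a) ^ 2 + 8 * a + 1)) * T := by
        rw [hM, ← hz3]
        ring

/-- **The average of `2 ^ rank`.** -/
theorem main_all {A : ℤ} (hA : A ≠ 0) : ∃ C : ℝ, 0 ≤ C ∧ ∀ T : ℝ, 1 ≤ T → ∀ J : Finset ℤ,
    (∀ t ∈ J, |(t : ℝ)| ≤ T ∧ 4 * A ^ 3 + 27 * t ^ 2 ≠ 0) →
    ∑ t ∈ J, (2 : ℝ) ^ rk A t ≤ C * T := by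
  obtain ⟨C₁, hC₁, h₁⟩ := irr_part hA
  obtain ⟨C₂, hC₂, h₂⟩ := red_part A
  obtain ⟨N, hN⟩ : ∃ N : ℤ, N = 4 * |A| ^ 3 := ⟨_, rfl⟩
  obtain ⟨C₃, hC₃⟩ : ∃ C₃ : ℝ, C₃ = ∑ t ∈ Finset.Icc (-N) N, (2 : ℝ) ^ rk A t := ⟨_, rfl⟩
  have hC₃0 : 0 ≤ C₃ := by
    rw [hC₃]
    exact Finset.sum_nonneg fun _ _ => by positivity
  refine ⟨C₁ + C₂ + C₃, by positivity, fun T hT J hJ => ?_⟩
  have hnn : ∀ t : ℤ, (0 : ℝ) ≤ (2 : ℝ) ^ rk A t := fun t => by positivity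
  obtain ⟨J₁, hJ₁⟩ : ∃ J₁ : Finset ℤ, J₁ = J.filter fun t => ¬ Irreducible (fq A t) := ⟨_, rfl⟩
  obtain ⟨J₂, hJ₂⟩ : ∃ J₂ : Finset ℤ, J₂ = (J.filter fun t => Irreducible (fq A t)).filter
    fun t => 0 < 4 * A ^ 3 + 27 * t ^ 2 := ⟨_, rfl⟩
  obtain ⟨J₃, hJ₃⟩ : ∃ J₃ : Finset ℤ, J₃ = (J.filter fun t => Irreducible (fq A t)).filter
    fun t => ¬ 0 < 4 * A ^ 3 + 27 * t ^ 2 := ⟨_, rfl⟩
  have hsplit : ∑ t ∈ J, (2 : ℝ) ^ rk A t = (∑ t ∈ J₂, (2 : ℝ) ^ rk A t +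
      ∑ t ∈ J₃, (2 : ℝ) ^ rk A t) + ∑ t ∈ J₁, (2 : ℝ) ^ rk A t := by
    rw [hJ₁, hJ₂, hJ₃, Finset.sum_filter_add_sum_filter_not, Finset.sum_filter_add_sum_filter_not]
  have b1 : ∑ t ∈ J₁, (2 : ℝ) ^ rk A t ≤ C₂ * T := h₂ T hT J₁ (by
    intro t ht
    rw [hJ₁, Finset.mem_filter] at ht
    exact ⟨(hJ t ht.1).1, (hJ t ht.1).2, ht.2⟩)
  have b2 : ∑ t ∈ J₂, (2 : ℝ) ^ rk A t ≤ C₁ * T := h₁ T hT J₂ (by
    intro t ht
    rw [hJ₂, Finset.mem_filter, Finset.mem_filter] at ht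
    exact ⟨(hJ t ht.1.1).1, ht.2, ht.1.2⟩)
  have b3 : ∑ t ∈ J₃, (2 : ℝ) ^ rk A t ≤ C₃ * T := by
    have h4 : ∑ t ∈ J₃, (2 : ℝ) ^ rk A t ≤ C₃ := by
      rw [hC₃]
      refine Finset.sum_le_sum_of_subset_of_nonneg ?_ fun t _ _ => hnn t
      intro t ht
      rw [hJ₃, Finset.mem_filter, Finset.mem_filter] at ht
      have h5 : 27 * t ^ 2 ≤ -(4 * A ^ 3) := by linarith [not_lt.1 ht.2]
      have h6 : -(4 * A ^ 3) ≤ N := by
        rw [hN]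
        have h7 : -(A ^ 3) ≤ |A| ^ 3 := by
          rw [← abs_pow]
          exact neg_le_abs _
        linarith
      have h8 : t ^ 2 ≤ N := by nlinarith [sq_nonneg t]
      have h9 : |t| ≤ N := by
        have h10 : |t| ≤ t ^ 2 := by
          rw [← sq_abs]
          have h11 := abs_nonneg t
          rcases eq_or_lt_of_le h11 with h12 | h12
          · rw [← h12]
            norm_num
          · have : 1 ≤ |t| := h12
            nlinarith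
        linarith
      rw [Finset.mem_Icc]
      exact abs_le.1 h9
    calc _ ≤ C₃ := h4
      _ = C₃ * 1 := by ring
      _ ≤ C₃ * T := by gcongr
  rw [hsplit]
  calc _ ≤ (C₁ * T + C₃ * T) + C₂ * T := add_le_add (add_le_add b2 b3) b1
    _ = _ := by ring

end Pool.Agent.V7H54.M
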