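import Pool.Agent.V7H54.M.FinP

/-!
# The family `y ^ 2 = x ^ 3 + b x ^ 2 + c x + t`
-/

set_option autoImplicit false
set_option linter.all false

open Polynomial WeierstrassCurve.Affine
open scoped Classical

namespace Pool.Agent.V7H54.M

open Pool.Agent.H925R3.DC

/-- The curve `y ^ 2 = x ^ 3 + b x ^ 2 + c x + t`. -/
def cv (b c t : ℤ) : WeierstrassCurve.Affine ℚ := ⟨0, b, 0, c, t⟩

/-- `A` of the short equation -/
def gA (b c : ℤ) : ℤ := 81 * c - 27 * b ^ 2

/-- `B` of the short equation -/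
def gT (b c t : ℤ) : ℤ := 729 * t - 243 * b * c + 54 * b ^ 3

theorem tr_eqn {b c t : ℤ} {x y : ℚ} (h : (cv b c t).Equation x y) :
    (crv ℚ (gA b c : ℚ) (gT b c t : ℚ)).Equation (9 * x + 3 * b) (27 * y) := by
  rw [equation_iff] at h ⊢
  simp only [cv, crv] at h ⊢
  unfold gA gT
  push_cast
  linear_combination 729 * h

theorem tr_ns {b c t : ℤ} {x y : ℚ} (h : (cv b c t).Nonsingular x y) :
    (crv ℚ (gA b c : ℚ) (gT b c t : ℚ)).Nonsingular (9 * x + 3 * b) (27 * y) := by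
  rw [nonsingular_iff] at h ⊢
  refine ⟨tr_eqn h.1, ?_⟩
  have h2 := h.2
  simp only [cv, crv] at h2 ⊢
  unfold gA
  push_cast
  rcases h2 with h2 | h2
  · left
    intro h3
    apply h2
    linear_combination h3 / 81
  · right
    intro h3
    apply h2
    linear_combination h3 / 27

/-- the map of the points -/
noncomputable def trf (b c t : ℤ) : (cv b c t).Point → (crv ℚ (gA b c : ℚ) (gT b c t : ℚ)).Point
  | .zero => .zero
  | .some x y h => .some (9 * x + 3 * b) (27 * y) (tr_ns h)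

theorem trf_add (b c t : ℤ) (P Q : (cv b c t).Point) : trf b c t (P + Q) = trf b c t P + trf b c t Q := by
  rcases P with _ | ⟨x₁, y₁, h₁⟩
  · show trf b c t (0 + Q) = 0 + trf b c t Q
    rw [zero_add, zero_add]
  rcases Q with _ | ⟨x₂, y₂, h₂⟩
  · show trf b c t (_ + 0) = trf b c t _ + 0
    rw [add_zero, add_zero]
  by_cases hxy : x₁ = x₂ ∧ y₁ = (cv b c t).negY x₂ y₂
  · rw [Point.add_of_Y_eq hxy.1 hxy.2]
    show 0 = Point.some _ _ (tr_ns h₁) + Point.some _ _ (tr_ns h₂)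
    refine (Point.add_of_Y_eq (by rw [hxy.1]) ?_).symm
    have h3 := hxy.2
    simp only [negY, cv, crv] at h3 ⊢
    linear_combination 27 * h3
  · have hxy' : ¬ (9 * x₁ + 3 * (b : ℚ) = 9 * x₂ + 3 * b ∧
        27 * y₁ = (crv ℚ (gA b c : ℚ) (gT b c t : ℚ)).negY (9 * x₂ + 3 * b) (27 * y₂)) := by
      rintro ⟨e1, e2⟩
      apply hxy
      refine ⟨by linarith, ?_⟩
      simp only [negY, cv, crv] at e2 ⊢
      linarith
    rw [Point.add_some hxy]
    show Point.some _ _ _ = Point.some _ _ (tr_ns h₁) + Point.some _ _ (tr_ns h₂)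
    rw [Point.add_some hxy']
    have hsl : (crv ℚ (gA b c : ℚ) (gT b c t : ℚ)).slope (9 * x₁ + 3 * b) (9 * x₂ + 3 * b) (27 * y₁)
        (27 * y₂) = 3 * (cv b c t).slope x₁ x₂ y₁ y₂ := by
      by_cases hx : x₁ = x₂
      · have hy : y₁ ≠ (cv b c t).negY x₂ y₂ := fun h => hxy ⟨hx, h⟩
        have hy' : 27 * y₁ ≠ (crv ℚ (gA b c : ℚ) (gT b c t : ℚ)).negY (9 * x₂ + 3 * b) (27 * y₂) :=
          fun h => hxy' ⟨by rw [hx], h⟩
        have hyy := Y_eq_of_Y_ne h₁.1 h₂.1 hx hy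
        rw [slope_of_Y_ne hx hy, slope_of_Y_ne (by rw [hx]) hy']
        subst hx
        subst hyy
        simp only [negY, cv, crv] at hy ⊢
        have h5 : y₁ ≠ 0 := by
          rintro rfl
          apply hy
          ring
        unfold gA
        push_cast
        have e1 : 27 * y₁ - (-(27 * y₁) - 0 * (9 * x₁ + 3 * (b : ℚ)) - 0) = 54 * y₁ := by ring
        have e2 : y₁ - (-y₁ - 0 * x₁ - 0) = 2 * y₁ := by ring
        rw [e1, e2]
        field_simp
        ring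
      · have hx' : 9 * x₁ + 3 * (b : ℚ) ≠ 9 * x₂ + 3 * b := by
          intro h
          apply hx
          linarith
        rw [slope_of_X_ne hx, slope_of_X_ne hx']
        have h6 : x₁ - x₂ ≠ 0 := sub_ne_zero.2 hx
        have e1 : 9 * x₁ + 3 * (b : ℚ) - (9 * x₂ + 3 * b) = 9 * (x₁ - x₂) := by ring
        rw [e1]
        field_simp
        ring
    simp only [Point.some.injEq]
    rw [hsl]
    constructor
    · simp only [addX, cv, crv]
      ring
    · simp only [addY, negAddY, negY, addX, cv, crv]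
      ring

theorem trf_inj (b c t : ℤ) : Function.Injective (trf b c t) := by
  rintro (_ | ⟨x₁, y₁, h₁⟩) (_ | ⟨x₂, y₂, h₂⟩) h
  · rfl
  · exact absurd h (by intro h0; cases h0)
  · exact absurd h (by intro h0; cases h0)
  · have h3 : Point.some _ _ (tr_ns h₁) = Point.some _ _ (tr_ns h₂) := h
    rw [Point.some.injEq] at h3
    rw [Point.some.injEq]
    exact ⟨by linarith [h3.1], by linarith [h3.2]⟩

/-- the homomorphism -/
noncomputable def trh (b c t : ℤ) : (cv b c t).Point →+ (crv ℚ (gA b c : ℚ) (gT b c t : ℚ)).Point where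
  toFun := trf b c t
  map_zero' := rfl
  map_add' := trf_add b c t

theorem delta_eq (b c t : ℤ) : (cv b c t).Δ * 3 ^ 12 =
    -16 * (4 * (gA b c : ℚ) ^ 3 + 27 * (gT b c t : ℚ) ^ 2) := by
  simp only [WeierstrassCurve.Δ, WeierstrassCurve.b₂, WeierstrassCurve.b₄, WeierstrassCurve.b₆,
    WeierstrassCurve.b₈, cv]
  unfold gA gT
  push_cast
  ring

theorem disc_of {b c t : ℤ} (h : (cv b c t).Δ ≠ 0) : 4 * gA b c ^ 3 + 27 * gT b c t ^ 2 ≠ 0 := by
  intro h0
  apply h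
  have h1 := delta_eq b c t
  have h2 : (4 * (gA b c : ℚ) ^ 3 + 27 * (gT b c t : ℚ) ^ 2) = 0 := by exact_mod_cast h0
  rw [h2, mul_zero] at h1
  rcases mul_eq_zero.1 h1 with h3 | h3
  · exact h3
  · norm_num at h3

/-- **Mordell's theorem.** -/
theorem fg {b c t : ℤ} (h : (cv b c t).Δ ≠ 0) : Module.Finite ℤ (cv b c t).Point := by
  rw [Module.Finite.iff_addGroup_fg]
  exact Pool.Agent.H64R2.DDMWK.fg_of_inj (trh b c t) (trf_inj b c t)
    (Pool.Agent.H64R2.DDMWK.mwk ℚ _ _ (disc_of h))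

theorem rk_le {b c t : ℤ} (h : (cv b c t).Δ ≠ 0) :
    Module.finrank ℤ (cv b c t).Point ≤ rk (gA b c) (gT b c t) := by
  haveI : Module.Finite ℤ (crv ℚ (gA b c : ℚ) (gT b c t : ℚ)).Point :=
    Module.Finite.iff_addGroup_fg.2 (Pool.Agent.H64R2.DDMWK.mwk ℚ _ _ (disc_of h))
  exact LinearMap.finrank_le_finrank_of_injective (f := (trh b c t).toIntLinearMap) (trf_inj b c t)

/-- **The average of `2 ^ rank`.** -/
theorem main_gen {b c : ℤ} (h : b ^ 2 ≠ 3 * c) : ∃ C : ℝ, 0 ≤ C ∧ ∀ T : ℝ, 1 ≤ T → ∀ J : Finset ℤ,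
    (∀ t ∈ J, |(t : ℝ)| ≤ T ∧ (cv b c t).Δ ≠ 0) →
    ∑ t ∈ J, (2 : ℝ) ^ Module.finrank ℤ (cv b c t).Point ≤ C * T := by
  have hA : gA b c ≠ 0 := by
    unfold gA
    intro h0
    apply h
    omega
  obtain ⟨C, hC, hmain⟩ := main_all hA
  obtain ⟨κ, hκ⟩ : ∃ κ : ℝ, κ = |((-243 * b * c + 54 * b ^ 3 : ℤ) : ℝ)| := ⟨_, rfl⟩
  have hκ0 : 0 ≤ κ := by rw [hκ]; positivity
  refine ⟨C * (729 + κ), by positivity, fun T hT J hJ => ?_⟩
  have hinj : Function.Injective (gT b c) := by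
    intro t t' h
    unfold gT at h
    omega
  have h1 : ∑ t ∈ J, (2 : ℝ) ^ Module.finrank ℤ (cv b c t).Point ≤
      ∑ t ∈ J, (2 : ℝ) ^ rk (gA b c) (gT b c t) := by
    refine Finset.sum_le_sum fun t ht => ?_
    exact pow_le_pow_right₀ (by norm_num) (rk_le (hJ t ht).2)
  have h2 : ∑ t ∈ J, (2 : ℝ) ^ rk (gA b c) (gT b c t) =
      ∑ s ∈ J.image (gT b c), (2 : ℝ) ^ rk (gA b c) s := by
    rw [Finset.sum_image fun x _ y _ h => hinj h]
  have h3 := hmain ((729 + κ) * T) (by nlinarith) (J.image (gT b c)) (by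
    intro s hs
    obtain ⟨t, ht, rfl⟩ := Finset.mem_image.1 hs
    refine ⟨?_, disc_of (hJ t ht).2⟩
    have e : ((gT b c t : ℤ) : ℝ) = 729 * (t : ℝ) + ((-243 * b * c + 54 * b ^ 3 : ℤ) : ℝ) := by
      unfold gT
      push_cast
      ring
    rw [e]
    calc |729 * (t : ℝ) + ((-243 * b * c + 54 * b ^ 3 : ℤ) : ℝ)| ≤ |729 * (t : ℝ)| + κ := by
          rw [hκ]
          exact abs_add_le _ _
      _ = 729 * |(t : ℝ)| + κ := by rw [abs_mul]; norm_num
      _ ≤ 729 * T + κ * T := by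
          have := (hJ t ht).1
          nlinarith
      _ = _ := by ring)
  calc _ ≤ _ := h1
    _ = _ := h2
    _ ≤ _ := h3
    _ = _ := by ring

end Pool.Agent.V7H54.M
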