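import Pool.Agent.V7H54.N.SepN
import Pool.Agent.N862.PF.SD

/-!
# The lattice of a rational point
-/

set_option autoImplicit false
set_option linter.all false

open Polynomial Matrix NumberField IsDedekindDomain nonZeroDivisors
open scoped Classical

namespace Pool.Agent.V7H54.M

open Pool.Agent.V7H54.A
open Pool.Agent.V7H54.N
open Pool.Agent.N783.PF

section fld

variable {L : Type} [Field L] [NumberField L] [Algebra ℚ L] {A t : ℤ} {θ : L}

/-- The ring `ℤ[θ]`. -/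
def Rg (θ : L) (x : L) : Prop := ∃ a b c : ℤ, x = a + b * θ + c * θ ^ 2

theorem cub (hG : IsGen 1 (pol A t) θ) : θ ^ 3 = -(A : L) * θ - t := by
  have h := hG.root
  rw [fF_pol] at h
  simp only [map_add, map_mul, map_pow, aeval_X, aeval_C, map_intCast] at h
  linear_combination h

theorem Rg.add {x y : L} (hx : Rg θ x) (hy : Rg θ y) : Rg θ (x + y) := by
  obtain ⟨a, b, c, rfl⟩ := hx
  obtain ⟨a', b', c', rfl⟩ := hy
  exact ⟨a + a', b + b', c + c', by push_cast; ring⟩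

theorem Rg.neg {x : L} (hx : Rg θ x) : Rg θ (-x) := by
  obtain ⟨a, b, c, rfl⟩ := hx
  exact ⟨-a, -b, -c, by push_cast; ring⟩

theorem Rg.int (n : ℤ) : Rg θ (n : L) := ⟨n, 0, 0, by push_cast; ring⟩

theorem Rg.mul (hG : IsGen 1 (pol A t) θ) {x y : L} (hx : Rg θ x) (hy : Rg θ y) :
    Rg θ (x * y) := by
  have hc := cub hG
  obtain ⟨a, b, c, rfl⟩ := hx
  obtain ⟨a', b', c', rfl⟩ := hy
  refine ⟨a * a' - (b * c' + c * b') * t, a * b' + b * a' - (b * c' + c * b') * A - c * c' * t,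
    a * c' + b * b' + c * a' - c * c' * A, ?_⟩
  push_cast
  linear_combination ((b : L) * c' + c * b' + c * c' * θ) * hc

theorem Rg.gen : Rg θ θ := ⟨0, 1, 0, by push_cast; ring⟩

theorem top3 (hG : IsGen 1 (pol A t) θ) (a b c : ℚ) :
    hG.top (algebraMap ℚ L a + algebraMap ℚ L b * θ + algebraMap ℚ L c * θ ^ 2) = c := by
  have e0 := Pool.Agent.N862.PF.top_pow hG 0 (by omega)
  have e1 := Pool.Agent.N862.PF.top_pow hG 1 (by omega)
  have e2 := Pool.Agent.N862.PF.top_pow hG 2 (by omega)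
  rw [pow_zero] at e0
  rw [pow_one] at e1
  have h0 : algebraMap ℚ L a = a • (1 : L) := by rw [Algebra.smul_def, mul_one]
  rw [h0, ← Algebra.smul_def, ← Algebra.smul_def, map_add, map_add, map_smul, map_smul, map_smul,
    e0, e1, e2]
  simp

theorem Rg.top (hG : IsGen 1 (pol A t) θ) {x : L} (hx : Rg θ x) : ∃ n : ℤ, hG.top x = n := by
  obtain ⟨a, b, c, rfl⟩ := hx
  refine ⟨c, ?_⟩
  have := top3 hG a b c
  simpa using this

theorem Rg.of_top (hG : IsGen 1 (pol A t) θ) {x : L} (h0 : ∃ n : ℤ, hG.top x = n)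
    (h1 : ∃ n : ℤ, hG.top (θ * x) = n) (h2 : ∃ n : ℤ, hG.top (θ ^ 2 * x) = n) : Rg θ x := by
  have hc := cub hG
  obtain ⟨v, hv⟩ := hG.gen x
  have hx : x = algebraMap ℚ L (v 0) + algebraMap ℚ L (v 1) * θ + algebraMap ℚ L (v 2) * θ ^ 2 := by
    rw [hv, Fin.sum_univ_three]
    have f0 : ((0 : Fin 3) : ℕ) = 0 := rfl
    have f1 : ((1 : Fin 3) : ℕ) = 1 := rfl
    have f2 : ((2 : Fin 3) : ℕ) = 2 := rfl
    rw [f0, f1, f2]
    ring
  obtain ⟨n0, h0⟩ := h0
  obtain ⟨n1, h1⟩ := h1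
  obtain ⟨n2, h2⟩ := h2
  have k0 : v 2 = n0 := by rw [← h0, hx, top3]
  have k1 : v 1 = n1 := by
    rw [← h1]
    have e : θ * x = algebraMap ℚ L (-(v 2) * t) + algebraMap ℚ L (v 0 - v 2 * A) * θ +
        algebraMap ℚ L (v 1) * θ ^ 2 := by
      rw [hx]
      simp only [map_mul, map_sub, map_neg, map_intCast]
      linear_combination (algebraMap ℚ L (v 2)) * hc
    rw [e, top3]
  have k2 : v 0 - v 2 * A = n2 := by
    rw [← h2]
    have e : θ ^ 2 * x = algebraMap ℚ L (-(v 1) * t) + algebraMap ℚ L (-(v 2) * t - v 1 * A) * θ +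
        algebraMap ℚ L (v 0 - v 2 * A) * θ ^ 2 := by
      rw [hx]
      simp only [map_mul, map_sub, map_neg, map_intCast]
      linear_combination (algebraMap ℚ L (v 1) + algebraMap ℚ L (v 2) * θ) * hc
    rw [e, top3]
  have k3 : v 0 = ((n2 + n0 * A : ℤ) : ℚ) := by
    push_cast
    rw [← k2, ← k0]
    ring
  refine ⟨n2 + n0 * A, n1, n0, ?_⟩
  rw [hx, k0, k1, k3]
  simp

/-- The representation is unique. -/
theorem uniq (hG : IsGen 1 (pol A t) θ) {a b c a' b' c' : ℤ}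
    (h : (a : L) + b * θ + c * θ ^ 2 = a' + b' * θ + c' * θ ^ 2) : a = a' ∧ b = b' ∧ c = c' := by
  have hli := hG.basis.linearIndependent
  rw [Fintype.linearIndependent_iff] at hli
  have h1 := hli ![((a - a' : ℤ) : ℚ), ((b - b' : ℤ) : ℚ), ((c - c' : ℤ) : ℚ)] (by
    rw [Fin.sum_univ_three]
    rw [hG.basis_apply, hG.basis_apply, hG.basis_apply]
    have f0 : ((0 : Fin 3) : ℕ) = 0 := rfl
    have f1 : ((1 : Fin 3) : ℕ) = 1 := rfl
    have f2 : ((2 : Fin 3) : ℕ) = 2 := rfl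
    rw [f0, f1, f2]
    rw [Algebra.smul_def, Algebra.smul_def, Algebra.smul_def]
    have e0 : (![((a - a' : ℤ) : ℚ), ((b - b' : ℤ) : ℚ), ((c - c' : ℤ) : ℚ)] : Fin 3 → ℚ) 0 =
      ((a - a' : ℤ) : ℚ) := rfl
    have e1 : (![((a - a' : ℤ) : ℚ), ((b - b' : ℤ) : ℚ), ((c - c' : ℤ) : ℚ)] : Fin 3 → ℚ) 1 =
      ((b - b' : ℤ) : ℚ) := rfl
    have e2 : (![((a - a' : ℤ) : ℚ), ((b - b' : ℤ) : ℚ), ((c - c' : ℤ) : ℚ)] : Fin 3 → ℚ) 2 =
      ((c - c' : ℤ) : ℚ) := rfl
    rw [e0, e1, e2]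
    simp only [map_intCast]
    push_cast
    linear_combination h)
  have k0 : ((a - a' : ℤ) : ℚ) = 0 := h1 0
  have k1 : ((b - b' : ℤ) : ℚ) = 0 := h1 1
  have k2 : ((c - c' : ℤ) : ℚ) = 0 := h1 2
  have k0' : a - a' = 0 := by exact_mod_cast k0
  have k1' : b - b' = 0 := by exact_mod_cast k1
  have k2' : c - c' = 0 := by exact_mod_cast k2
  omega

/-- the norm of a linear polynomial in `θ` -/
theorem norm_lin (hG : IsGen 1 (pol A t) θ) (a b : ℤ) :
    Algebra.norm ℚ ((a : L) - b * θ) = (a : ℚ) ^ 3 + A * a * b ^ 2 + t * b ^ 3 := by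
  have hc := cub hG
  obtain ⟨M, hM⟩ : ∃ M : Matrix (Fin 3) (Fin 3) ℚ,
    M = !![(a : ℚ), 0, b * t; -b, a, b * A; 0, -b, a] := ⟨_, rfl⟩
  have hbi : ∀ i : Fin 3, hG.basis i = θ ^ (i : ℕ) := fun i => hG.basis_apply i
  have hMat : Algebra.leftMulMatrix hG.basis ((a : L) - b * θ) = M := by
    ext i j
    rw [Algebra.leftMulMatrix_eq_repr_mul]
    have key : ((a : L) - b * θ) * hG.basis j = ∑ i : Fin 3, M i j • hG.basis i := by
      rw [Fin.sum_univ_three, hbi, hbi, hbi, hbi, hM]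
      have f0 : ((0 : Fin 3) : ℕ) = 0 := rfl
      have f1 : ((1 : Fin 3) : ℕ) = 1 := rfl
      have f2 : ((2 : Fin 3) : ℕ) = 2 := rfl
      rw [Algebra.smul_def, Algebra.smul_def, Algebra.smul_def, f0, f1, f2]
      have hj : j = 0 ∨ j = 1 ∨ j = 2 := by
        fin_cases j
        · exact Or.inl rfl
        · exact Or.inr (Or.inl rfl)
        · exact Or.inr (Or.inr rfl)
      rcases hj with rfl | rfl | rfl
      · simp
        ring
      · simp
        ring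
      · simp
        linear_combination (-(b : L)) * hc
    rw [key, map_sum, Finset.sum_apply']
    simp only [map_smul, Module.Basis.repr_self]
    rw [Fin.sum_univ_three]
    fin_cases i <;> simp
  rw [Algebra.norm_eq_matrix_det hG.basis, hMat, hM]
  rw [Matrix.det_fin_three]
  simp
  ring

/-- The module `(u, α)` of `ℤ[θ]`. -/
noncomputable def Lam (u : ℤ) (θ α : L) : Submodule (𝓞 ℚ) L :=
  Submodule.span (𝓞 ℚ) (Set.range ![(u : L), u * θ, u * θ ^ 2, α, α * θ, α * θ ^ 2])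

theorem mem_lam (u : ℤ) (α x : L) : x ∈ Lam u θ α ↔
    ∃ a b : L, Rg θ a ∧ Rg θ b ∧ x = u * a + α * b := by
  unfold Lam
  rw [Submodule.mem_span_range_iff_exists_fun]
  constructor
  · rintro ⟨c, rfl⟩
    obtain ⟨n0, h0⟩ := okq (c 0)
    obtain ⟨n1, h1⟩ := okq (c 1)
    obtain ⟨n2, h2⟩ := okq (c 2)
    obtain ⟨n3, h3⟩ := okq (c 3)
    obtain ⟨n4, h4⟩ := okq (c 4)
    obtain ⟨n5, h5⟩ := okq (c 5)
    refine ⟨n0 + n1 * θ + n2 * θ ^ 2, n3 + n4 * θ + n5 * θ ^ 2, ⟨n0, n1, n2, rfl⟩,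
      ⟨n3, n4, n5, rfl⟩, ?_⟩
    rw [Fin.sum_univ_six, ← h0, ← h1, ← h2, ← h3, ← h4, ← h5]
    simp only [Algebra.smul_def]
    simp
    ring
  · rintro ⟨_, _, ⟨n0, n1, n2, rfl⟩, ⟨n3, n4, n5, rfl⟩, rfl⟩
    refine ⟨![(n0 : 𝓞 ℚ), n1, n2, n3, n4, n5], ?_⟩
    rw [Fin.sum_univ_six]
    simp only [Algebra.smul_def]
    simp
    ring

/-- **The lattice of a rational point.** -/
theorem lat_pt (hG : IsGen 1 (pol A t) θ) {r s u : ℤ} (hu0 : u ≠ 0) (hus : IsCoprime u s)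
    (h : u ^ 2 = r ^ 3 + A * r * s ^ 4 + t * s ^ 6) :
    Lat hG ((r : L) - s ^ 2 * θ) (Lam u θ ((r : L) - s ^ 2 * θ)) := by
  have hc := cub hG
  obtain ⟨α, hα⟩ : ∃ α : L, α = (r : L) - s ^ 2 * θ := ⟨_, rfl⟩
  obtain ⟨α', hα'⟩ : ∃ α' : L, α' = ((r ^ 2 + A * s ^ 4 : ℤ) : L) + ((r * s ^ 2 : ℤ) : L) * θ +
    ((s ^ 4 : ℤ) : L) * θ ^ 2 := ⟨_, rfl⟩
  rw [← hα]
  have hαR : Rg θ α := ⟨r, -s ^ 2, 0, by rw [hα]; push_cast; ring⟩
  have hα'R : Rg θ α' := ⟨_, _, _, hα'⟩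
  have hh : (u : L) ^ 2 = (r : L) ^ 3 + A * r * s ^ 4 + t * s ^ 6 := by exact_mod_cast h
  have hprod : α * α' = (u : L) ^ 2 := by
    rw [hα, hα', hh]
    push_cast
    linear_combination (-(s : L) ^ 6) * hc
  have hu0' : (u : L) ≠ 0 := by exact_mod_cast hu0
  have hα0 : α ≠ 0 := by
    intro h0
    rw [h0, zero_mul] at hprod
    exact hu0' (pow_eq_zero_iff two_ne_zero |>.1 hprod.symm)
  have hdiv : (u : L) ^ 2 / α = α' := by
    rw [← hprod]
    field_simp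
  constructor
  · exact Submodule.fg_span (Set.finite_range _)
  · intro x
    obtain ⟨v, hv⟩ := hG.gen x
    obtain ⟨n, hn0, hn⟩ : ∃ n : ℤ, n ≠ 0 ∧ Rg θ (n * x) := by
      refine ⟨(v 0).den * (v 1).den * (v 2).den, ?_, (v 0).num * (v 1).den * (v 2).den,
        (v 1).num * (v 0).den * (v 2).den, (v 2).num * (v 0).den * (v 1).den, ?_⟩
      · have h0 := (v 0).den_ne_zero
        have h1 := (v 1).den_ne_zero
        have h2 := (v 2).den_ne_zero
        exact_mod_cast mul_ne_zero (mul_ne_zero h0 h1) h2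
      · have key : ∀ q : ℚ, ((q.den : ℤ) : L) * algebraMap ℚ L q = ((q.num : ℤ) : L) := by
          intro q
          have h1 : (q.den : ℚ) * q = q.num := Rat.den_mul_eq_num q
          have h2 := congrArg (algebraMap ℚ L) h1
          rw [map_mul, map_natCast, map_intCast] at h2
          exact_mod_cast h2
        have k0 := key (v 0)
        have k1 := key (v 1)
        have k2 := key (v 2)
        rw [hv, Fin.sum_univ_three]
        have f0 : ((0 : Fin 3) : ℕ) = 0 := rfl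
        have f1 : ((1 : Fin 3) : ℕ) = 1 := rfl
        have f2 : ((2 : Fin 3) : ℕ) = 2 := rfl
        rw [f0, f1, f2]
        push_cast at k0 k1 k2 ⊢
        linear_combination ((v 1).den : L) * (v 2).den * k0 + ((v 0).den : L) * (v 2).den * θ * k1 +
          ((v 0).den : L) * (v 1).den * θ ^ 2 * k2
    refine ⟨((u * n : ℤ) : 𝓞 ℚ), by exact_mod_cast mul_ne_zero hu0 hn0, ?_⟩
    rw [mem_lam]
    refine ⟨n * x, 0, hn, ⟨0, 0, 0, by simp⟩, ?_⟩
    rw [Algebra.smul_def]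
    simp
    ring
  · intro x hx
    rw [mem_lam] at hx ⊢
    obtain ⟨a, b, ha, hb, rfl⟩ := hx
    exact ⟨θ * a, θ * b, Rg.mul hG Rg.gen ha, Rg.mul hG Rg.gen hb, by ring⟩
  · intro x hx y hy
    rw [mem_lam] at hx hy
    obtain ⟨a, b, ha, hb, rfl⟩ := hx
    obtain ⟨a', b', ha', hb', rfl⟩ := hy
    have e : (u * a + α * b) * (u * a' + α * b') / α =
        α' * (a * a') + u * (a * b' + b * a') + α * (b * b') := by
      rw [← hdiv]
      field_simp
      ring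
    obtain ⟨n, hn⟩ := Rg.top hG (x := (u * a + α * b) * (u * a' + α * b') / α) (by
      rw [e]
      exact ((hα'R.mul hG (ha.mul hG ha')).add ((Rg.int u).mul hG ((ha.mul hG hb').add
        (hb.mul hG ha')))).add (hαR.mul hG (hb.mul hG hb')))
    rw [hn]
    exact isIntegral_algebraMap (x := n)
  · intro y hy
    have key : ∀ x ∈ Lam u θ α, Rg θ (x * y / α) := by
      intro x hx
      have hx' := (mem_lam u α x).1 hx
      obtain ⟨a, b, ha, hb, hxe⟩ := hx'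
      have hint : ∀ x' ∈ Lam u θ α, ∃ n : ℤ, hG.top (x' * y / α) = n := by
        intro x' hx'
        have h1 := hy x' hx'
        obtain ⟨n, hn⟩ := IsIntegrallyClosed.isIntegral_iff.1 h1
        exact ⟨n, hn.symm⟩
      refine Rg.of_top hG (hint x hx) ?_ ?_
      · have e : θ * (x * y / α) = θ * x * y / α := by ring
        rw [e]
        refine hint _ ?_
        rw [mem_lam]
        exact ⟨θ * a, θ * b, Rg.mul hG Rg.gen ha, Rg.mul hG Rg.gen hb, by rw [hxe]; ring⟩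
      · have e : θ ^ 2 * (x * y / α) = θ ^ 2 * x * y / α := by ring
        rw [e]
        refine hint _ ?_
        rw [mem_lam]
        have h2 : Rg θ (θ ^ 2) := ⟨0, 0, 1, by push_cast; ring⟩
        exact ⟨θ ^ 2 * a, θ ^ 2 * b, Rg.mul hG h2 ha, Rg.mul hG h2 hb, by rw [hxe]; ring⟩
    have h0 : Rg θ (0 : L) := ⟨0, 0, 0, by simp⟩
    have h1 : Rg θ (1 : L) := ⟨1, 0, 0, by simp⟩
    have hyR : Rg θ y := by
      have := key α ((mem_lam u α α).2 ⟨0, 1, h0, h1, by ring⟩)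
      rwa [mul_div_assoc, mul_div_cancel₀ _ hα0] at this
    have huy : Rg θ (u * y / α) := key u ((mem_lam u α u).2 ⟨1, 0, h1, h0, by ring⟩)
    obtain ⟨β, hβ⟩ : ∃ β : L, β = u * y / α := ⟨_, rfl⟩
    rw [← hβ] at huy
    have hβ' : (u : L) * y = α * β := by
      rw [hβ]
      field_simp
    obtain ⟨y0, y1, y2, hy'⟩ := hyR
    -- `s ^ 4 y = α γ + n`
    obtain ⟨n, hn⟩ : ∃ n : ℤ, n = s ^ 4 * y0 + s ^ 2 * y1 * r + y2 * r ^ 2 := ⟨_, rfl⟩
    obtain ⟨γ, hγ⟩ : ∃ γ : L, γ = -(((s ^ 2 * y1 : ℤ) : L) + ((y2 * r : ℤ) : L) +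
      ((y2 * s ^ 2 : ℤ) : L) * θ) := ⟨_, rfl⟩
    have hγR : Rg θ γ := ⟨-(s ^ 2 * y1 + y2 * r), -(y2 * s ^ 2), 0, by rw [hγ]; push_cast; ring⟩
    have h4 : (s : L) ^ 4 * y = α * γ + n := by
      rw [hy', hγ, hn, hα]
      push_cast
      ring
    -- `u n` is in `α R`
    obtain ⟨δ, hδ⟩ : ∃ δ : L, δ = (s : L) ^ 4 * β - u * γ := ⟨_, rfl⟩
    have hδR : Rg θ δ := by
      rw [hδ, sub_eq_add_neg]
      refine Rg.add ?_ (Rg.neg ((Rg.int u).mul hG hγR))
      have := (Rg.int (θ := θ) (s ^ 4)).mul hG huy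
      rwa [Int.cast_pow] at this
    have h5 : (u : L) * n = α * δ := by
      rw [hδ]
      linear_combination (-(u : L)) * h4 + (s : L) ^ 4 * hβ'
    -- the coefficients
    obtain ⟨d0, d1, d2, hd⟩ := hδR
    have h6 : (n : L) * α' = u * δ := by
      have : (u : L) * (n * α') = u * (u * δ) := by
        have h7 : (u : L) * (n * α') = (α * α') * δ := by
          calc (u : L) * (n * α') = (u * n) * α' := by ring
            _ = _ := by rw [h5]; ring
        rw [h7, hprod]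
        ring
      exact mul_left_cancel₀ hu0' this
    have h8 := uniq hG (a := n * (r ^ 2 + A * s ^ 4)) (b := n * (r * s ^ 2)) (c := n * s ^ 4)
      (a' := u * d0) (b' := u * d1) (c' := u * d2) (by
      rw [hα', hd] at h6
      push_cast at h6 ⊢
      linear_combination h6)
    obtain ⟨-, -, h9⟩ := h8
    have h10 : u ∣ n := by
      have h11 : u ∣ n * s ^ 4 := ⟨d2, h9⟩
      exact (hus.pow_right (n := 4)).dvd_of_dvd_mul_right h11
    obtain ⟨j, hj⟩ := h10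
    -- the end
    obtain ⟨p, q, hpq⟩ := hus.pow_right (n := 4)
    rw [mem_lam]
    refine ⟨p * y + q * j, q * γ, ?_, (Rg.int q).mul hG hγR, ?_⟩
    · exact ((Rg.int p).mul hG ⟨y0, y1, y2, hy'⟩).add ((Rg.int q).mul hG (Rg.int j))
    · have h12 : (p : L) * u + q * (s : L) ^ 4 = 1 := by exact_mod_cast hpq
      have h13 : (n : L) = u * j := by exact_mod_cast hj
      rw [h13] at h4
      linear_combination (-y) * h12 + (q : L) * h4

end fld

end Pool.Agent.V7H54.M
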