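import Pool.Agent.V7H54.M.RepP
import Pool.Agent.V7H54.A.Rt

/-!
# Curves with a rational point of order two: the two square classes of a point
-/

set_option autoImplicit false
set_option linter.all false

open scoped Classical

namespace Pool.Agent.V7H54.M

/-- the square part of a factor of a square -/
theorem sq_part {a b c : ℤ} (h : a * b = c ^ 2) (hc : c ≠ 0) :
    ∃ a₀ : ℤ, a = (Int.gcd a b : ℤ) * a₀ ^ 2 ∨ a = -((Int.gcd a b : ℤ) * a₀ ^ 2) := by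
  have ha : a ≠ 0 := by
    rintro rfl
    rw [zero_mul] at h
    exact hc (pow_eq_zero_iff two_ne_zero |>.1 h.symm)
  obtain ⟨g, hg⟩ : ∃ g : ℤ, g = (Int.gcd a b : ℤ) := ⟨_, rfl⟩
  have hg0 : g ≠ 0 := by
    rw [hg]
    exact_mod_cast (Int.gcd_pos_of_ne_zero_left b ha).ne'
  obtain ⟨a', ha'⟩ : g ∣ a := by rw [hg]; exact Int.gcd_dvd_left ..
  obtain ⟨b', hb'⟩ : g ∣ b := by rw [hg]; exact Int.gcd_dvd_right ..
  have hcop : Int.gcd a' b' = 1 := by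
    have h1 : Int.gcd (g * a') (g * b') = g.natAbs * Int.gcd a' b' := Int.gcd_mul_left ..
    rw [← ha', ← hb'] at h1
    have h2 : g.natAbs = Int.gcd a b := by rw [hg]; exact Int.natAbs_natCast _
    rw [h2] at h1
    have h3 : 0 < Int.gcd a b := Int.gcd_pos_of_ne_zero_left b ha
    exact Nat.eq_of_mul_eq_mul_left h3 (by rw [mul_one]; exact h1.symm)
  have h4 : g ^ 2 * (a' * b') = c ^ 2 := by rw [← h, ha', hb']; ring
  have h5 : g ∣ c := (Int.pow_dvd_pow_iff two_ne_zero).1 ⟨a' * b', h4.symm⟩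
  obtain ⟨c', hc'⟩ := h5
  have h6 : a' * b' = c' ^ 2 := by
    have h7 : g ^ 2 * (a' * b') = g ^ 2 * c' ^ 2 := by rw [h4, hc']; ring
    exact mul_left_cancel₀ (pow_ne_zero 2 hg0) h7
  obtain ⟨a₀, h8⟩ := Int.sq_of_gcd_eq_one hcop h6
  refine ⟨a₀, ?_⟩
  rw [← hg]
  rcases h8 with h8 | h8
  · left
    rw [ha', h8]
  · right
    rw [ha', h8]
    ring

/-- **The first class.** -/
theorem cls1 {A m r s u : ℤ} (hus : IsCoprime u s) (hu : u ≠ 0) (hs : s ≠ 0)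
    (h : u ^ 2 = (r - m * s ^ 2) * (r ^ 2 + m * r * s ^ 2 + (m ^ 2 + A) * s ^ 4)) :
    ∃ d a₀ : ℤ, d ∣ 3 * m ^ 2 + A ∧ a₀ ≠ 0 ∧ r - m * s ^ 2 = d * a₀ ^ 2 := by
  obtain ⟨a, ha⟩ : ∃ a : ℤ, a = r - m * s ^ 2 := ⟨_, rfl⟩
  obtain ⟨N, hN⟩ : ∃ N : ℤ, N = r ^ 2 + m * r * s ^ 2 + (m ^ 2 + A) * s ^ 4 := ⟨_, rfl⟩
  rw [← ha, ← hN] at h
  rw [← ha]
  have hu2 : u ^ 2 ≠ 0 := pow_ne_zero 2 hu
  have ha0 : a ≠ 0 := by
    rintro rfl
    rw [zero_mul] at h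
    exact hu2 h
  have has : IsCoprime a s := by
    have h1 : IsCoprime (u ^ 2) s := hus.pow_left
    rw [h] at h1
    exact h1.of_mul_left_left
  have hNa : N = a * (r + 2 * m * s ^ 2) + (3 * m ^ 2 + A) * s ^ 4 := by
    rw [hN, ha]
    ring
  obtain ⟨g, hg⟩ : ∃ g : ℤ, g = (Int.gcd a N : ℤ) := ⟨_, rfl⟩
  have hga : g ∣ a := by rw [hg]; exact Int.gcd_dvd_left ..
  have hgN : g ∣ N := by rw [hg]; exact Int.gcd_dvd_right ..
  have hgb : g ∣ 3 * m ^ 2 + A := by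
    have h1 : g ∣ (3 * m ^ 2 + A) * s ^ 4 := by
      have h2 : (3 * m ^ 2 + A) * s ^ 4 = N - a * (r + 2 * m * s ^ 2) := by rw [hNa]; ring
      rw [h2]
      exact dvd_sub hgN (hga.mul_right _)
    have h3 : IsCoprime g (s ^ 4) := (has.of_isCoprime_of_dvd_left hga).pow_right
    exact h3.dvd_of_dvd_mul_right h1
  obtain ⟨a₀, h4⟩ := sq_part h.symm hu
  rw [← hg] at h4
  have ha₀ : a₀ ≠ 0 := by
    rintro rfl
    rcases h4 with h4 | h4 <;> exact ha0 (by rw [h4]; ring)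
  rcases h4 with h4 | h4
  · exact ⟨g, a₀, hgb, ha₀, h4⟩
  · exact ⟨-g, a₀, (neg_dvd).2 hgb, ha₀, by rw [h4]; ring⟩

theorem gcd_pow_dvd (a b : ℕ) (n : ℕ) : Nat.gcd a (b ^ n) ∣ Nat.gcd a b ^ n := by
  induction n with
  | zero => simp
  | succ n ih =>
    rw [pow_succ, pow_succ]
    exact (Nat.gcd_mul_right_dvd_mul_gcd a (b ^ n) b).trans (mul_dvd_mul_right ih _)

/-- **The second class.** -/
theorem cls2 {A m r s n : ℤ} (hrs : IsCoprime r s) (hs : s ≠ 0) (hD : 3 * m ^ 2 + 4 * A ≠ 0)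
    (h : n ^ 2 = r ^ 2 + m * r * s ^ 2 + (m ^ 2 + A) * s ^ 4) :
    ∃ k a₀ : ℤ, k ∣ 2 * (3 * m ^ 2 + 4 * A) ∧ a₀ ≠ 0 ∧ 2 * r + m * s ^ 2 + 2 * n = k * a₀ ^ 2 := by
  obtain ⟨D, hDd⟩ : ∃ D : ℤ, D = 3 * m ^ 2 + 4 * A := ⟨_, rfl⟩
  rw [← hDd] at hD ⊢
  obtain ⟨q, hq⟩ : ∃ q : ℤ, q = 2 * r + m * s ^ 2 + 2 * n := ⟨_, rfl⟩
  obtain ⟨q', hq'⟩ : ∃ q' : ℤ, q' = 2 * r + m * s ^ 2 - 2 * n := ⟨_, rfl⟩
  rw [← hq]
  have hqq : q * q' = -(D * s ^ 4) := by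
    rw [hq, hq', hDd]
    linear_combination (-4) * h
  have hs4 : s ^ 4 ≠ 0 := pow_ne_zero 4 hs
  have hq0 : q ≠ 0 := by
    rintro rfl
    rw [zero_mul] at hqq
    exact mul_ne_zero hD hs4 (neg_eq_zero.1 hqq.symm)
  -- the gcds
  obtain ⟨G, hG⟩ : ∃ G : ℕ, G = Int.gcd q (s ^ 4) := ⟨_, rfl⟩
  obtain ⟨G', hG'⟩ : ∃ G' : ℕ, G' = Int.gcd q' (s ^ 4) := ⟨_, rfl⟩
  have hGq : (G : ℤ) ∣ q := by rw [hG]; exact Int.gcd_dvd_left ..
  have hGs : (G : ℤ) ∣ s ^ 4 := by rw [hG]; exact Int.gcd_dvd_right ..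
  have hG'q : (G' : ℤ) ∣ q' := by rw [hG']; exact Int.gcd_dvd_left ..
  have hG0 : (G : ℤ) ≠ 0 := by
    intro h0
    rw [h0] at hGq
    exact hq0 (zero_dvd_iff.1 hGq)
  obtain ⟨H, hH⟩ := hGs
  have hHG' : H ∣ (G' : ℤ) := by
    -- `s ^ 4 ∣ G G'`
    have h1 : (s ^ 4).natAbs ∣ G * G' := by
      have h2 : (s ^ 4).natAbs ∣ Nat.gcd (s ^ 4).natAbs (q.natAbs * q'.natAbs) := by
        refine Nat.dvd_gcd dvd_rfl ?_
        rw [← Int.natAbs_mul, hqq, Int.natAbs_neg, Int.natAbs_mul]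
        exact Nat.dvd_mul_left _ _
      have h3 := h2.trans (Nat.gcd_mul_right_dvd_mul_gcd (s ^ 4).natAbs q.natAbs q'.natAbs)
      rw [Nat.gcd_comm, Nat.gcd_comm (s ^ 4).natAbs q'.natAbs] at h3
      rw [hG, hG']
      exact h3
    have h4 : s ^ 4 ∣ (G : ℤ) * G' := by
      rw [← Int.natAbs_dvd]
      exact_mod_cast h1
    rw [hH] at h4
    exact (mul_dvd_mul_iff_left hG0).1 h4
  -- the gcd of `G` and `H` divides `2 ^ 8`
  have hgcd : Int.gcd G H ∣ 2 ^ 8 := by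
    have h1 : Int.gcd G H ∣ Int.gcd q q' := by
      refine Int.dvd_gcd ?_ ?_
      · exact (Int.gcd_dvd_left ..).trans hGq
      · exact ((Int.gcd_dvd_right ..).trans hHG').trans hG'q
    have h2 : Int.gcd G H ∣ (s ^ 4).natAbs := by
      rw [← Int.natCast_dvd]
      exact (Int.gcd_dvd_left ..).trans ⟨H, hH⟩
    have h3 : Int.gcd G H ∣ Nat.gcd (Int.gcd q q') (s.natAbs ^ 4) := by
      refine Nat.dvd_gcd h1 ?_
      rw [← Int.natAbs_pow]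
      exact h2
    refine (h3.trans (gcd_pow_dvd _ _ 4)).trans ?_
    have h4 : Nat.gcd (Int.gcd q q') s.natAbs ∣ 4 := by
      have h5 : ((Nat.gcd (Int.gcd q q') s.natAbs : ℕ) : ℤ) ∣ s := by
        rw [Int.natCast_dvd]
        exact Nat.gcd_dvd_right _ _
      have h6 : ((Nat.gcd (Int.gcd q q') s.natAbs : ℕ) : ℤ) ∣ (Int.gcd q q' : ℤ) := by
        exact_mod_cast Nat.gcd_dvd_left _ _
      have h7 : ((Nat.gcd (Int.gcd q q') s.natAbs : ℕ) : ℤ) ∣ q + q' :=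
        dvd_add (h6.trans (Int.gcd_dvd_left ..)) (h6.trans (Int.gcd_dvd_right ..))
      have h8 : ((Nat.gcd (Int.gcd q q') s.natAbs : ℕ) : ℤ) ∣ 4 * r := by
        have h9 : 4 * r = (q + q') - s * (2 * m * s) := by rw [hq, hq']; ring
        rw [h9]
        exact dvd_sub h7 (h5.mul_right _)
      have h10 : IsCoprime ((Nat.gcd (Int.gcd q q') s.natAbs : ℕ) : ℤ) r :=
        (hrs.symm).of_isCoprime_of_dvd_left h5
      have h11 := h10.dvd_of_dvd_mul_right h8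
      exact_mod_cast h11
    have := pow_dvd_pow_of_dvd h4 4
    norm_num at this ⊢
    exact this
  obtain ⟨j, -, hj⟩ := (Nat.dvd_prime_pow Nat.prime_two).1 hgcd
  have hGH : (G : ℤ) * H = (s ^ 2) ^ 2 := by rw [← hH]; ring
  obtain ⟨a₀, ha₀⟩ := sq_part hGH (pow_ne_zero 2 hs)
  rw [hj] at ha₀
  have hGpos : (0 : ℤ) < G := by
    have : (0 : ℤ) ≤ G := by positivity
    omega
  have hG2 : (G : ℤ) = 2 ^ j * a₀ ^ 2 := by
    rcases ha₀ with h1 | h1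
    · exact_mod_cast h1
    · exfalso
      have h2 : (0 : ℤ) ≤ ((2 ^ j : ℕ) : ℤ) * a₀ ^ 2 := by positivity
      omega
  have ha₀0 : a₀ ≠ 0 := by
    rintro rfl
    rw [hG2] at hG0
    exact hG0 (by ring)
  -- the complementary divisor
  obtain ⟨k₁, hk₁⟩ := hGq
  have hk₁D : k₁ ∣ D := by
    have h1 : IsCoprime k₁ H := by
      have h2 : Int.gcd (G * k₁) (G * H) = (G : ℤ).natAbs * Int.gcd k₁ H := Int.gcd_mul_left ..
      rw [← hk₁, ← hH, ← hG, Int.natAbs_natCast] at h2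
      have h3 : 0 < G := by exact_mod_cast hGpos
      have h4 : Int.gcd k₁ H = 1 := Nat.eq_of_mul_eq_mul_left h3 (by rw [mul_one]; exact h2.symm)
      exact Int.isCoprime_iff_gcd_eq_one.2 h4
    have h5 : k₁ ∣ D * H := by
      have h6 : (G : ℤ) * (k₁ * q') = (G : ℤ) * (-(D * H)) := by
        calc (G : ℤ) * (k₁ * q') = q * q' := by rw [hk₁]; ring
          _ = _ := by rw [hqq, hH]; ring
      have h7 := mul_left_cancel₀ hG0 h6
      exact ⟨-q', by linarith⟩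
    exact h1.dvd_of_dvd_mul_right h5
  rcases Nat.even_or_odd' j with ⟨i, hi | hi⟩
  · refine ⟨k₁, 2 ^ i * a₀, hk₁D.mul_left _, by positivity, ?_⟩
    rw [hk₁, hG2, hi]
    ring
  · refine ⟨2 * k₁, 2 ^ i * a₀, mul_dvd_mul_left _ hk₁D, by positivity, ?_⟩
    rw [hk₁, hG2, hi]
    ring

/-- the divisors of an integer -/
noncomputable def dv (n : ℤ) : Finset ℤ :=
  (n.natAbs.divisors.image fun d : ℕ => (d : ℤ)) ∪ (n.natAbs.divisors.image fun d : ℕ => -(d : ℤ))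

theorem mem_dv {n d : ℤ} (hn : n ≠ 0) (h : d ∣ n) : d ∈ dv n := by
  unfold dv
  rw [Finset.mem_union, Finset.mem_image, Finset.mem_image]
  have h1 : d.natAbs ∈ n.natAbs.divisors :=
    Nat.mem_divisors.2 ⟨Int.natAbs_dvd_natAbs.2 h, Int.natAbs_ne_zero.2 hn⟩
  rcases Int.natAbs_eq d with h2 | h2
  · exact Or.inl ⟨_, h1, h2.symm⟩
  · exact Or.inr ⟨_, h1, h2.symm⟩

theorem card_dv (n : ℤ) : ((dv n).card : ℝ) ≤ 4 * Real.sqrt |(n : ℝ)| := by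
  have h1 : (dv n).card ≤ n.natAbs.divisors.card + n.natAbs.divisors.card :=
    (Finset.card_union_le _ _).trans (add_le_add Finset.card_image_le Finset.card_image_le)
  have h2 := Pool.Agent.V7H54.A.card_divisors_le_two_sqrt n.natAbs
  have h3 : ((n.natAbs : ℕ) : ℝ) = |(n : ℝ)| := by
    rw [Nat.cast_natAbs, Int.cast_abs]
  rw [h3] at h2
  have h4 : ((dv n).card : ℝ) ≤ n.natAbs.divisors.card + n.natAbs.divisors.card := by
    exact_mod_cast h1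
  linarith

end Pool.Agent.V7H54.M
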