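import Pool.Agent.V7H54.M.RedA

/-!
# The descent with polynomials instead of elements of a field
-/

set_option autoImplicit false
set_option linter.all false

open Polynomial WeierstrassCurve.Affine
open scoped Classical

namespace Pool.Agent.V7H54.M

open Pool.Agent.H925R3.DC

/-- the cubic -/
noncomputable def fq (A t : ℤ) : ℚ[X] := X ^ 3 + C (A : ℚ) * X + C (t : ℚ)

theorem fq_mon (A t : ℤ) : (fq A t).Monic := by
  unfold fq
  monicity!

theorem fq_deg (A t : ℤ) : (fq A t).natDegree = 3 := by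
  unfold fq
  compute_degree!

theorem fq_eval (A t : ℤ) (x : ℚ) : (fq A t).eval x = x ^ 3 + A * x + t := by
  unfold fq
  simp

/-- a quadratic polynomial divisible by the cubic is zero -/
theorem dvd_zero3 {A t : ℤ} {a b c : ℚ} (h : fq A t ∣ C a + C b * X + C c * X ^ 2) :
    a = 0 ∧ b = 0 ∧ c = 0 := by
  have h0 : (C a + C b * X + C c * X ^ 2 : ℚ[X]) = 0 := by
    refine eq_zero_of_dvd_of_natDegree_lt h ?_
    rw [fq_deg]
    have : (C a + C b * X + C c * X ^ 2 : ℚ[X]).natDegree ≤ 2 := by compute_degree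
    omega
  refine ⟨?_, ?_, ?_⟩
  · have := congrArg (fun p => coeff p 0) h0
    simpa [coeff_X_pow, coeff_C, coeff_X, coeff_C_mul] using this
  · have := congrArg (fun p => coeff p 1) h0
    simpa [coeff_X_pow, coeff_C, coeff_X, coeff_C_mul] using this
  · have := congrArg (fun p => coeff p 2) h0
    simpa [coeff_X_pow, coeff_C, coeff_X, coeff_C_mul] using this

/-- **A point with `x - X` a square modulo `f` is divisible by two.** -/
theorem ker_pol {A t : ℤ} (hd : 4 * A ^ 3 + 27 * t ^ 2 ≠ 0) {x y : ℚ}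
    (h : (crv ℚ (A : ℚ) (t : ℚ)).Nonsingular x y) {s : ℚ[X]} (hs : fq A t ∣ C x - X - s ^ 2) :
    ∃ S : (crv ℚ (A : ℚ) (t : ℚ)).Point, Point.some x y h = S + S := by
  obtain ⟨f, hf⟩ : ∃ f : ℚ[X], f = fq A t := ⟨_, rfl⟩
  have hfe : f = X ^ 3 + C (A : ℚ) * X + C (t : ℚ) := hf
  rw [← hf] at hs
  -- reduction
  obtain ⟨s₁, hs₁⟩ : ∃ s₁ : ℚ[X], s₁ = s %ₘ f := ⟨_, rfl⟩
  have hs2 : f ∣ C x - X - s₁ ^ 2 := by
    have h1 : s = s₁ + f * (s /ₘ f) := by
      rw [hs₁]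
      exact (modByMonic_add_div s f).symm
    have h2 : C x - X - s₁ ^ 2 = (C x - X - s ^ 2) + f * ((s /ₘ f) * (s + s₁)) := by
      have h3 : s ^ 2 - s₁ ^ 2 = f * (s /ₘ f) * (s + s₁) := by
        have h4 : s - s₁ = f * (s /ₘ f) := by
          nth_rewrite 1 [h1]
          ring
        rw [← h4]
        ring
      linear_combination h3
    rw [h2]
    exact dvd_add hs (dvd_mul_right _ _)
  have hdeg : s₁.natDegree ≤ 2 := by
    have h1 := natDegree_modByMonic_lt s (hf ▸ fq_mon A t : f.Monic) (by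
      intro h1
      have := fq_deg A t
      rw [← hf, h1, natDegree_one] at this
      omega)
    rw [← hs₁, hf, fq_deg] at h1
    omega
  obtain ⟨u, v, w, hs'⟩ : ∃ u v w : ℚ, s₁ = C u + C v * X + C w * X ^ 2 := by
    refine ⟨s₁.coeff 0, s₁.coeff 1, s₁.coeff 2, ?_⟩
    have h1 := s₁.as_sum_range_C_mul_X_pow' (n := 3) (by omega)
    rw [Finset.sum_range_succ, Finset.sum_range_succ, Finset.sum_range_succ, Finset.sum_range_zero] at h1
    conv_lhs => rw [h1]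
    ring
  have hw : w ≠ 0 := by
    rintro rfl
    have h1 : C x - X - s₁ ^ 2 = C (x - u ^ 2) + C (-1 - 2 * u * v) * X + C (-v ^ 2) * X ^ 2 := by
      rw [hs']
      simp only [map_sub, map_neg, map_mul, map_pow, map_one, map_ofNat, map_zero]
      ring
    rw [h1, hf] at hs2
    obtain ⟨-, h2, h3⟩ := dvd_zero3 hs2
    have h4 : v = 0 := by
      have : v ^ 2 = 0 := by linarith
      exact pow_eq_zero_iff two_ne_zero |>.1 this
    rw [h4] at h2
    norm_num at h2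
  obtain ⟨e, he⟩ : ∃ e : ℚ, e = v / w := ⟨_, rfl⟩
  have hew : e * w = v := by rw [he]; field_simp
  obtain ⟨l, hl⟩ : ∃ l : ℚ, l = u - e * v - A * w := ⟨_, rfl⟩
  obtain ⟨m, hm⟩ : ∃ m : ℚ, m = -(e * u) - t * w := ⟨_, rfl⟩
  have hew' := congrArg (fun z : ℚ => (C z : ℚ[X])) hew
  have hl' := congrArg (fun z : ℚ => (C z : ℚ[X])) hl
  have hm' := congrArg (fun z : ℚ => (C z : ℚ[X])) hm
  simp only [map_sub, map_neg, map_mul] at hew' hl' hm'
  have h1 : (C e - X) * s₁ + (C l * X + C m) = -(C w * f) := by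
    rw [hs', hl', hm', hfe]
    linear_combination (X ^ 2) * hew'
  have h2 : f ∣ C (m ^ 2 - e ^ 2 * x - t) + C (2 * l * m + e ^ 2 + 2 * e * x - A) * X +
      C (l ^ 2 - 2 * e - x) * X ^ 2 := by
    obtain ⟨g, hg⟩ := hs2
    refine ⟨C w * ((C e - X) * s₁ - (C l * X + C m)) - (C e - X) ^ 2 * g - 1, ?_⟩
    simp only [map_sub, map_add, map_mul, map_pow, map_ofNat]
    linear_combination ((C l * X + C m) - (C e - X) * s₁) * h1 - (C e - X) ^ 2 * hg + hfe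
  rw [hf] at h2
  obtain ⟨k1, k2, k3⟩ := dvd_zero3 h2
  obtain ⟨z, hz⟩ : ∃ z : ℚ, z = l * e + m := ⟨_, rfl⟩
  have hzz : z ^ 2 = e ^ 3 + A * e + t := by
    rw [hz]
    linear_combination e ^ 2 * k3 + e * k2 + k1
  have hz0 : z ≠ 0 := by
    intro h0
    rw [h0] at hz
    have hme : m = -(l * e) := by linarith
    rw [hme] at k1 k2
    have h3 : (A : ℚ) = -3 * e ^ 2 := by linear_combination (-k2) - 2 * e * k3
    have h4 : (t : ℚ) = 2 * e ^ 3 := by linear_combination (-k1) + e ^ 2 * k3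
    apply hd
    have h5 : (4 * (A : ℚ) ^ 3 + 27 * (t : ℚ) ^ 2) = 0 := by
      rw [h3, h4]
      ring
    exact_mod_cast h5
  have hE : (crv ℚ (A : ℚ) (t : ℚ)).Equation e z := by
    rw [equation_iff]
    simp only [crv]
    linear_combination hzz
  have hN : (crv ℚ (A : ℚ) (t : ℚ)).Nonsingular e z := by
    rw [nonsingular_iff]
    refine ⟨hE, Or.inr ?_⟩
    simp only [crv]
    intro h5
    apply hz0
    linarith
  have hny : z ≠ (crv ℚ (A : ℚ) (t : ℚ)).negY e z := by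
    intro h5
    simp only [negY, crv] at h5
    apply hz0
    linarith
  have hsl : (crv ℚ (A : ℚ) (t : ℚ)).slope e e z z = l := by
    rw [slope_of_Y_ne rfl hny]
    simp only [negY, crv]
    have h6 : z - (-z - 0 * e - 0) = 2 * z := by ring
    rw [h6, div_eq_iff (by simpa using hz0)]
    rw [hz]
    linear_combination (-k2) - 2 * e * k3
  obtain ⟨S, hS⟩ : ∃ S : (crv ℚ (A : ℚ) (t : ℚ)).Point, S = Point.some e z hN := ⟨_, rfl⟩
  have hSS : ∃ (x' y' : ℚ) (h' : (crv ℚ (A : ℚ) (t : ℚ)).Nonsingular x' y'),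
      S + S = Point.some x' y' h' ∧ x' = x := by
    refine ⟨_, _, _, by rw [hS]; exact Point.add_self_of_Y_ne hny, ?_⟩
    rw [hsl]
    simp only [addX, crv]
    linear_combination k3
  obtain ⟨x', y', h', hSS', hxx⟩ := hSS
  subst hxx
  rcases (Point.X_eq_iff (h₁ := h) (h₂ := h')).1 rfl with h7 | h7
  · exact ⟨S, by rw [h7, hSS']⟩
  · refine ⟨-S, ?_⟩
    rw [h7, ← hSS']
    abel

/-- the product formula -/
theorem prod_pol {A t : ℤ} {x₁ y₁ x₂ y₂ : ℚ}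
    (h₁ : (crv ℚ (A : ℚ) (t : ℚ)).Nonsingular x₁ y₁) (h₂ : (crv ℚ (A : ℚ) (t : ℚ)).Nonsingular x₂ y₂)
    (hxy : ¬ (x₁ = x₂ ∧ y₁ = (crv ℚ (A : ℚ) (t : ℚ)).negY x₂ y₂)) :
    ∃ (x₃ y₃ : ℚ) (h₃ : (crv ℚ (A : ℚ) (t : ℚ)).Nonsingular x₃ y₃) (w : ℚ[X]),
    Point.some x₁ y₁ h₁ + Point.some x₂ y₂ h₂ = Point.some x₃ y₃ h₃ ∧
    (C x₁ - X) * (C x₂ - X) * (C x₃ - X) = w ^ 2 - fq A t := by
  obtain ⟨l, hl⟩ : ∃ l : ℚ, l = (crv ℚ (A : ℚ) (t : ℚ)).slope x₁ x₂ y₁ y₂ := ⟨_, rfl⟩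
  have hp := addPolynomial_slope h₁.1 h₂.1 hxy
  rw [← hl, addPolynomial_eq] at hp
  simp only [Cubic.toPoly, addX, crv] at hp
  refine ⟨_, _, _, C l * (X - C x₁) + C y₁, Point.add_some hxy, ?_⟩
  rw [← hl]
  simp only [addX, crv]
  unfold fq
  simp only [map_neg, map_add, map_sub, map_mul, map_pow, map_one, map_zero, map_ofNat] at hp ⊢
  linear_combination -hp

/-- **The descent map is injective.** -/
theorem inj_pol {A t : ℤ} (hd : 4 * A ^ 3 + 27 * t ^ 2 ≠ 0) {x₁ y₁ x₂ y₂ : ℚ}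
    (h₁ : (crv ℚ (A : ℚ) (t : ℚ)).Nonsingular x₁ y₁) (h₂ : (crv ℚ (A : ℚ) (t : ℚ)).Nonsingular x₂ y₂)
    (h1 : (fq A t).eval x₁ ≠ 0) (h2 : (fq A t).eval x₂ ≠ 0) {s : ℚ[X]}
    (hs : fq A t ∣ (C x₁ - X) * (C x₂ - X) - s ^ 2) :
    ∃ S : (crv ℚ (A : ℚ) (t : ℚ)).Point, Point.some x₁ y₁ h₁ - Point.some x₂ y₂ h₂ = S + S := by
  by_cases hx : x₁ = x₂
  · rcases (Point.X_eq_iff (h₁ := h₁) (h₂ := h₂)).1 hx with h | h
    · exact ⟨0, by rw [h]; simp⟩
    · refine ⟨Point.some x₁ y₁ h₁, ?_⟩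
      have h3 : Point.some x₂ y₂ h₂ = - Point.some x₁ y₁ h₁ := by rw [h, neg_neg]
      rw [h3, sub_neg_eq_add]
  · obtain ⟨x₃, y₃, h₃, w, hadd, hw⟩ := prod_pol h₁ h₂ (fun h => hx h.1)
    obtain ⟨f, hf⟩ : ∃ f : ℚ[X], f = fq A t := ⟨_, rfl⟩
    rw [← hf] at hw hs h1 h2
    have hcop : ∀ x : ℚ, f.eval x ≠ 0 → IsCoprime (C x - X) f := by
      intro x hx
      have e : (C x - X : ℚ[X]) = -(X - C x) := by ring
      rw [e]
      refine IsCoprime.neg_left ?_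
      rw [(irreducible_X_sub_C x).coprime_iff_not_dvd, dvd_iff_isRoot]
      exact hx
    obtain ⟨a, b, hab⟩ := (hcop x₁ h1).mul_left (hcop x₂ h2)
    obtain ⟨g, hg⟩ := hs
    have h4 : fq A t ∣ C x₃ - X - (a * w * s) ^ 2 := by
      rw [← hf]
      obtain ⟨U, hU⟩ : ∃ U : ℚ[X], U = (C x₁ - X) * (C x₂ - X) := ⟨_, rfl⟩
      rw [← hU] at hab hg hw
      -- w ^ 2 = U (x₃ - X) + f, s ^ 2 = U - f g, a U = 1 - b f
      refine ⟨(C x₃ - X) * (b * (1 + a * U)) - a ^ 2 * U + a ^ 2 * w ^ 2 * g, ?_⟩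
      have e1 : w ^ 2 = U * (C x₃ - X) + f := by linear_combination -hw
      have e2 : s ^ 2 = U - f * g := by linear_combination -hg
      have e3 : (a * w * s) ^ 2 = a ^ 2 * w ^ 2 * s ^ 2 := by ring
      rw [e3, e2]
      linear_combination (-(a ^ 2 * U)) * e1 - (C x₃ - X) * (1 + a * U) * hab
    obtain ⟨S, hS⟩ := ker_pol hd h₃ h4
    refine ⟨S - Point.some x₂ y₂ h₂, ?_⟩
    have h5 : Point.some x₁ y₁ h₁ = S + S - Point.some x₂ y₂ h₂ := by
      rw [← hS, ← hadd]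
      abel
    rw [h5]
    abel

end Pool.Agent.V7H54.M
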