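import Pool.Agent.V7H54.M.DescP

/-!
# Representatives modulo two, and the shape of the rational points
-/

set_option autoImplicit false
set_option linter.all false

open Polynomial Matrix NumberField WeierstrassCurve.Affine
open scoped Classical

namespace Pool.Agent.V7H54.M

/-- **Representatives.** -/
theorem ex_rep (G : Type) [AddCommGroup G] (hG : AddGroup.FG G) : ∃ R : Finset G,
    2 ^ Module.finrank ℤ G = R.card ∧ (0 : G) ∈ R ∧
    ∀ P ∈ R, ∀ Q ∈ R, (∃ S : G, P - Q = S + S) → P = Q := by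
  haveI hfin : Module.Finite ℤ G := Module.Finite.iff_addGroup_fg.2 hG
  obtain ⟨T, hT⟩ : ∃ T : Submodule ℤ G, T = Submodule.torsion ℤ G := ⟨_, rfl⟩
  haveI h1 : Module.Finite ℤ (G ⧸ T) := inferInstance
  haveI h2 : Module.IsTorsionFree ℤ (G ⧸ T) := by
    rw [hT]
    infer_instance
  haveI h3 : Module.Free ℤ (G ⧸ T) := inferInstance
  have h4 : Module.finrank ℤ (G ⧸ T) = Module.finrank ℤ G := by
    unfold Module.finrank
    rw [rank_quotient_eq_of_le_torsion hT.le]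
  obtain ⟨n, hn⟩ : ∃ n : ℕ, n = Module.finrank ℤ (G ⧸ T) := ⟨_, rfl⟩
  obtain ⟨b⟩ : Nonempty (Module.Basis (Fin n) ℤ (G ⧸ T)) := by
    rw [hn]
    exact ⟨Module.finBasis ℤ (G ⧸ T)⟩
  have hch : ∀ i : Fin n, ∃ g : G, T.mkQ g = b i := fun i => T.mkQ_surjective (b i)
  choose g hg using hch
  obtain ⟨F, hF⟩ : ∃ F : Finset (Fin n) → G, F = fun I => ∑ i ∈ I, g i := ⟨_, rfl⟩
  have hFq : ∀ I : Finset (Fin n), T.mkQ (F I) = ∑ i ∈ I, b i := by
    intro I
    rw [hF]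
    simp only [map_sum, hg]
  have hrepr : ∀ (I : Finset (Fin n)) (j : Fin n), b.repr (∑ i ∈ I, b i) j = if j ∈ I then 1 else 0 := by
    intro I j
    rw [map_sum, Finset.sum_apply']
    simp only [Module.Basis.repr_self, Finsupp.single_apply]
    rw [Finset.sum_ite_eq']
  have key : ∀ I J : Finset (Fin n), (∃ S : G, F I - F J = S + S) → I = J := by
    rintro I J ⟨S, hS⟩
    have h5 := congrArg T.mkQ hS
    rw [map_sub, map_add, hFq, hFq] at h5
    ext j
    have h6 := congrArg (fun z => b.repr z j) h5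
    simp only [map_sub, map_add, Finsupp.sub_apply, Finsupp.add_apply] at h6
    rw [hrepr, hrepr] at h6
    by_cases hI : j ∈ I <;> by_cases hJ : j ∈ J
    · exact ⟨fun _ => hJ, fun _ => hI⟩
    · rw [if_pos hI, if_neg hJ] at h6
      omega
    · rw [if_neg hI, if_pos hJ] at h6
      omega
    · exact ⟨fun h => absurd h hI, fun h => absurd h hJ⟩
  have hinj : Function.Injective F := by
    intro I J h
    exact key I J ⟨0, by rw [h]; simp⟩
  refine ⟨(Finset.univ : Finset (Finset (Fin n))).image F, ?_, ?_, ?_⟩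
  · rw [Finset.card_image_of_injective _ hinj, Finset.card_univ, Fintype.card_finset,
      Fintype.card_fin, hn, h4]
  · rw [Finset.mem_image]
    exact ⟨∅, Finset.mem_univ _, by rw [hF]; simp⟩
  · intro P hP Q hQ hPQ
    obtain ⟨I, -, rfl⟩ := Finset.mem_image.1 hP
    obtain ⟨J, -, rfl⟩ := Finset.mem_image.1 hQ
    rw [key I J hPQ]

/-- **The shape of a rational point.** -/
theorem shape {A t : ℤ} {x y : ℚ} (h : y ^ 2 = x ^ 3 + A * x + t) :
    ∃ r s u : ℤ, s ≠ 0 ∧ IsCoprime u s ∧ x = r / s ^ 2 ∧ y = u / s ^ 3 ∧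
      u ^ 2 = r ^ 3 + A * r * s ^ 4 + t * s ^ 6 := by
  obtain ⟨a, ha⟩ : ∃ a : ℤ, a = x.num := ⟨_, rfl⟩
  obtain ⟨b, hb⟩ : ∃ b : ℤ, b = x.den := ⟨_, rfl⟩
  obtain ⟨c, hc⟩ : ∃ c : ℤ, c = y.num := ⟨_, rfl⟩
  obtain ⟨d, hd⟩ : ∃ d : ℤ, d = y.den := ⟨_, rfl⟩
  have hb0 : 0 < b := by rw [hb]; exact_mod_cast x.den_pos
  have hd0 : 0 < d := by rw [hd]; exact_mod_cast y.den_pos
  have hab : IsCoprime a b := by
    rw [ha, hb, Int.isCoprime_iff_gcd_eq_one]
    have := x.reduced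
    simpa [Int.gcd] using this
  have hcd : IsCoprime c d := by
    rw [hc, hd, Int.isCoprime_iff_gcd_eq_one]
    have := y.reduced
    simpa [Int.gcd] using this
  have hx : x = a / b := by
    rw [ha, hb]
    exact_mod_cast (Rat.num_div_den x).symm
  have hy : y = c / d := by
    rw [hc, hd]
    exact_mod_cast (Rat.num_div_den y).symm
  have hbq : (b : ℚ) ≠ 0 := by exact_mod_cast hb0.ne'
  have hdq : (d : ℚ) ≠ 0 := by exact_mod_cast hd0.ne'
  obtain ⟨N, hN⟩ : ∃ N : ℤ, N = a ^ 3 + A * a * b ^ 2 + t * b ^ 3 := ⟨_, rfl⟩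
  have h1 : c ^ 2 * b ^ 3 = d ^ 2 * N := by
    have h2 : (c : ℚ) ^ 2 * b ^ 3 = d ^ 2 * N := by
      rw [hx, hy] at h
      rw [hN]
      field_simp at h
      push_cast
      linear_combination h
    exact_mod_cast h2
  have hNb : IsCoprime N b := by
    have h2 : IsCoprime (a ^ 3) b := hab.pow_left
    have h3 : N = a ^ 3 + b * (A * a * b + t * b ^ 2) := by rw [hN]; ring
    rw [h3]
    exact h2.add_mul_left_left _
  have h4 : d ^ 2 ∣ b ^ 3 := by
    have h5 : d ^ 2 ∣ c ^ 2 * b ^ 3 := ⟨N, h1⟩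
    exact (hcd.symm.pow (m := 2) (n := 2)).dvd_of_dvd_mul_left h5
  have h6 : b ^ 3 ∣ d ^ 2 := by
    have h7 : b ^ 3 ∣ d ^ 2 * N := ⟨c ^ 2, by rw [← h1]; ring⟩
    exact (hNb.symm.pow_left (m := 3)).dvd_of_dvd_mul_right h7
  have h8 : b ^ 3 = d ^ 2 :=
    Int.dvd_antisymm (by positivity) (by positivity) h6 h4
  have h9 : b ∣ d := by
    have h10 : b ^ 2 ∣ d ^ 2 := ⟨b, by rw [← h8]; ring⟩
    exact (Int.pow_dvd_pow_iff two_ne_zero).1 h10
  obtain ⟨s, hs⟩ := h9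
  have hs2 : b = s ^ 2 := by
    have h11 : b ^ 2 * b = b ^ 2 * s ^ 2 := by
      calc b ^ 2 * b = b ^ 3 := by ring
        _ = d ^ 2 := h8
        _ = _ := by rw [hs]; ring
    exact mul_left_cancel₀ (pow_ne_zero 2 hb0.ne') h11
  have hd3 : d = s ^ 3 := by rw [hs, hs2]; ring
  have hs0 : s ≠ 0 := by
    rintro rfl
    rw [hs2] at hb0
    norm_num at hb0
  refine ⟨a, s, c, hs0, ?_, ?_, ?_, ?_⟩
  · rw [hd3] at hcd
    exact (IsCoprime.pow_right_iff (by norm_num : 0 < 3)).1 hcd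
  · rw [hx, hs2]
    push_cast
    rfl
  · rw [hy, hd3]
    push_cast
    rfl
  · have h12 : s ^ 6 * c ^ 2 = s ^ 6 * (a ^ 3 + A * a * s ^ 4 + t * s ^ 6) := by
      have h13 := h1
      rw [hN, hs2, hd3] at h13
      linear_combination h13
    exact mul_left_cancel₀ (pow_ne_zero 6 hs0) h12

end Pool.Agent.V7H54.M
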